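import Pool.Graph.R_pool_sql_team_seeded_64922ed1.X25.TE.Avg

set_option autoImplicit false

/-! Weighted means of `R(x, y)` over the translates by the members of thin families: one step. -/

namespace Pool.Agent.H82.UC
open Finset Filter
open Pool.Agent.H373R2.T7 (energy)
open Pool.Agent.X25.TE (R)
open Pool.Agent.W301.SS (ev_L ev_log)

lemma exists_enum (S : Finset ℕ) : ∃ e : ℕ → ℕ, (∀ i ∈ Icc 1 S.card, e i ∈ S) ∧
    Set.InjOn e (Icc 1 S.card : Finset ℕ) ∧ ∀ g : ℕ → ℝ, ∑ i ∈ Icc 1 S.card, g (e i) = ∑ m ∈ S, g m := by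
  classical
  set f := S.orderEmbOfFin rfl with hf
  let e : ℕ → ℕ := fun i => if h : i - 1 < S.card then f ⟨i - 1, h⟩ else 0
  have hmem : ∀ i ∈ Icc 1 S.card, e i ∈ S := by
    intro i hi
    rw [mem_Icc] at hi
    have h : i - 1 < S.card := by omega
    simp only [e, dif_pos h]
    exact S.orderEmbOfFin_mem rfl _
  have hinj : Set.InjOn e (Icc 1 S.card : Finset ℕ) := by
    intro i hi j hj hij
    simp only [coe_Icc, Set.mem_Icc] at hi hj
    have h1 : i - 1 < S.card := by omega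
    have h2 : j - 1 < S.card := by omega
    simp only [e, dif_pos h1, dif_pos h2] at hij
    have h3 := congrArg Fin.val (f.injective hij)
    simp only at h3
    omega
  have himg : (Icc 1 S.card).image e = S := by
    apply eq_of_subset_of_card_le
    · intro m hm
      obtain ⟨i, hi, rfl⟩ := mem_image.1 hm
      exact hmem i hi
    · rw [card_image_of_injOn hinj, Nat.card_Icc]
      omega
  refine ⟨e, hmem, hinj, fun g => ?_⟩
  conv_rhs => rw [← himg]
  rw [sum_image hinj]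

lemma energy_sub (p x x' : ℕ) (s : ℕ → ℤ) (e : ℕ → ℕ) (h1 : ∀ i ∈ Icc 1 x', e i ∈ Icc 1 x)
    (h2 : Set.InjOn e (Icc 1 x' : Finset ℕ)) : energy p x' (fun i => s (e i)) ≤ energy p x s := by
  classical
  unfold energy
  apply card_le_card_of_injOn (fun q => (fun i => e (q.1 i), fun i => e (q.2 i)))
  · intro q hq
    simp only [coe_filter, mem_product, Fintype.mem_piFinset, Set.mem_ofPred_eq] at hq ⊢
    exact ⟨⟨fun i => h1 _ (hq.1.1 i), fun i => h1 _ (hq.1.2 i)⟩, hq.2⟩
  · intro q hq q' hq' heq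
    simp only [coe_filter, mem_product, Fintype.mem_piFinset, Set.mem_ofPred_eq] at hq hq'
    simp only [Prod.mk.injEq] at heq
    ext i
    · exact h2 (by exact_mod_cast hq.1.1 i) (by exact_mod_cast hq'.1.1 i) (congrFun heq.1 i)
    · exact h2 (by exact_mod_cast hq.1.2 i) (by exact_mod_cast hq'.1.2 i) (congrFun heq.2 i)

lemma energy_congr' (p x : ℕ) (u v : ℕ → ℤ) (h : ∀ m ∈ Icc 1 x, u m = v m) : energy p x u = energy p x v := by
  unfold energy
  congr 1
  apply filter_congr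
  intro q hq
  simp only [mem_product, Fintype.mem_piFinset] at hq
  rw [sum_congr rfl fun i _ => h _ (hq.1 i), sum_congr rfl fun i _ => h _ (hq.2 i)]

lemma one_le_energy_zero (x : ℕ) (s : ℕ → ℤ) : 1 ≤ energy 0 x s := by
  unfold energy
  apply Finset.card_pos.2
  refine ⟨((fun i => Fin.elim0 i), (fun i => Fin.elim0 i)), ?_⟩
  rw [mem_filter, mem_product, Fintype.mem_piFinset]
  refine ⟨⟨fun i => Fin.elim0 i, fun i => Fin.elim0 i⟩, ?_⟩
  simp

lemma pc_add_le (n k : ℕ) : Nat.primeCounting (n + k) ≤ Nat.primeCounting n + k := by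
  induction k with
  | zero => simp
  | succ k ih =>
    have h : Nat.primeCounting (n + k + 1) ≤ Nat.primeCounting (n + k) + 1 := by
      unfold Nat.primeCounting Nat.primeCounting'
      rw [Nat.count_succ]
      split_ifs <;> omega
    rw [← add_assoc]
    omega

lemma R_nonneg (n : ℕ) (y : ℝ) (hy : 0 ≤ y) : 0 ≤ R n y := by
  unfold R
  apply div_nonneg
  · rw [sub_nonneg]
    exact_mod_cast Nat.monotone_primeCounting (Nat.floor_le_floor (by linarith))
  · exact div_nonneg hy (Real.log_natCast_nonneg n)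

lemma R_le (n : ℕ) (y : ℝ) (hy : 0 < y) : R n y ≤ Real.log n := by
  unfold R
  have hfl : ⌊(n : ℝ) + y⌋₊ = n + ⌊y⌋₊ := by
    rw [add_comm, Nat.floor_add_natCast hy.le, add_comm]
  rw [Nat.floor_natCast, hfl]
  have h1 : ((Nat.primeCounting (n + ⌊y⌋₊) : ℕ) : ℝ) ≤ Nat.primeCounting n + ⌊y⌋₊ := by
    exact_mod_cast pc_add_le n ⌊y⌋₊
  have h2 : (⌊y⌋₊ : ℝ) ≤ y := Nat.floor_le hy.le
  rcases (Real.log_natCast_nonneg n).eq_or_lt with h0 | h0
  · rw [← h0]; simp
  · rw [div_le_iff₀ (by positivity)]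
    have h3 : Real.log n * (y / Real.log n) = y := by field_simp
    linarith

lemma R_mono (n : ℕ) {y y' : ℝ} (hy : 0 < y) (h : y ≤ y') : R n y * y ≤ R n y' * y' := by
  unfold R
  rcases (Real.log_natCast_nonneg n).eq_or_lt with h0 | h0
  · rw [← h0]; simp
  · have hy' : 0 < y' := lt_of_lt_of_le hy h
    have e : ∀ (c z : ℝ), 0 < z → c / (z / Real.log n) * z = c * Real.log n := by
      intro c z hz
      field_simp
    rw [e _ _ hy, e _ _ hy']
    apply mul_le_mul_of_nonneg_right _ h0.le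
    have h1 : Nat.primeCounting ⌊(n : ℝ) + y⌋₊ ≤ Nat.primeCounting ⌊(n : ℝ) + y'⌋₊ :=
      Nat.monotone_primeCounting (Nat.floor_le_floor (by linarith))
    have h2 : (Nat.primeCounting ⌊(n : ℝ) + y⌋₊ : ℝ) ≤ Nat.primeCounting ⌊(n : ℝ) + y'⌋₊ := by exact_mod_cast h1
    linarith

/-- the sum over the translate with the weight `w` -/
noncomputable def D (N : ℕ) (w : ℕ → ℝ) (b : ℕ) (y : ℝ) : ℝ :=
  ∑ a ∈ Icc 1 N, w a * (R ((a + b : ℕ) : ℝ) y - 1)

end Pool.Agent.H82.UC
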