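import Pool.Agent.H82.UC.Step
import Pool.Graph.R_pool_sql_team_seeded_2aa45f1a.Q56.TF.Near

set_option autoImplicit false

/-! Correlations of `R(x, y)` at `k` points: induction on `k`. -/

namespace Pool.Agent.H82.UC
open Finset Filter
open Pool.Agent.H373R2.T7 (energy)
open Pool.Agent.X25.TE (R)
open Pool.Agent.W301.SS (ev_L ev_log)
open Pool.Agent.Q56.TF (Near)

/-- nonnegative weights, at most a power of the logarithm, whose sum is not too small -/
def Adm (C N : ℕ) (w : ℕ → ℝ) : Prop :=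
  (∀ a ∈ Icc 1 N, 0 ≤ w a) ∧ (∀ a ∈ Icc 1 N, w a ≤ Real.log N ^ C) ∧
    (N : ℝ) ≤ Real.log N ^ C * ∑ a ∈ Icc 1 N, w a

/-- the correlations of the `R(a + b i, y i)` with the weight `w` -/
def Unc (ε : ℝ) (K N : ℕ) (w : ℕ → ℝ) {k : ℕ} (b : Fin k → ℕ) : Prop :=
  ∀ (J : Finset (Fin k)) (y : Fin k → ℝ), (∀ i, Real.log N ^ K ≤ y i ∧ y i ≤ N) →
    |∑ a ∈ Icc 1 N, w a * ∏ i ∈ J, R ((a + b i : ℕ) : ℝ) (y i) - ∑ a ∈ Icc 1 N, w a| ≤
      ε * ∑ a ∈ Icc 1 N, w a

lemma card_window (X : ℕ) (r H : ℝ) (hH : 0 ≤ H) :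
    (((Icc 1 X).filter (fun b : ℕ => |(b : ℝ) - r| ≤ H)).card : ℝ) ≤ 2 * H + 1 := by
  classical
  rcases ((Icc 1 X).filter (fun b : ℕ => |(b : ℝ) - r| ≤ H)).eq_empty_or_nonempty with h | h
  · rw [h]
    simp only [card_empty, Nat.cast_zero]
    linarith
  · obtain ⟨c, hc, hmin⟩ := exists_min_image _ (fun b : ℕ => b) h
    have h1 : (Icc 1 X).filter (fun b : ℕ => |(b : ℝ) - r| ≤ H) ⊆ Icc c (c + ⌊2 * H⌋₊) := by
      intro b hb
      rw [mem_Icc]
      refine ⟨hmin b hb, ?_⟩
      have h2 := (abs_le.1 (mem_filter.1 hb).2).2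
      have h3 := (abs_le.1 (mem_filter.1 hc).2).1
      have h4 := hmin b hb
      have h5 : b - c ≤ ⌊2 * H⌋₊ := by
        apply Nat.le_floor
        rw [Nat.cast_sub h4]
        linarith
      omega
    have h2 := card_le_card h1
    rw [Nat.card_Icc] at h2
    have h3 : (((Icc 1 X).filter (fun b : ℕ => |(b : ℝ) - r| ≤ H)).card : ℝ) ≤ (⌊2 * H⌋₊ : ℝ) + 1 := by
      have : ((Icc 1 X).filter (fun b : ℕ => |(b : ℝ) - r| ≤ H)).card ≤ ⌊2 * H⌋₊ + 1 := by omega
      exact_mod_cast this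
    have h4 : (⌊2 * H⌋₊ : ℝ) ≤ 2 * H := Nat.floor_le (by linarith)
    linarith

/-- the comparison of the lengths in a class -/
lemma R_compare (n : ℕ) {y Y η : ℝ} (hy : 0 < y) (_hη : 0 ≤ η) (h1 : y ≤ Y) (h2 : Y ≤ (1 + η) * y) :
    R n y ≤ (1 + η) * R n Y := by
  have h3 := R_mono n hy h1
  have hY : 0 < Y := lt_of_lt_of_le hy h1
  have h4 := R_nonneg n Y hY.le
  have h5 : R n y * y ≤ ((1 + η) * R n Y) * y := by
    calc R n y * y ≤ R n Y * Y := h3
      _ ≤ R n Y * ((1 + η) * y) := by gcongr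
      _ = _ := by ring
  exact le_of_mul_le_mul_right h5 hy

lemma prod_split {k : ℕ} (J : Finset (Fin (k + 1))) (f : Fin (k + 1) → ℝ) :
    ∏ i ∈ J, f i = (if (0 : Fin (k + 1)) ∈ J then f 0 else 1) *
      ∏ i ∈ univ.filter (fun i : Fin k => i.succ ∈ J), f i.succ := by
  classical
  have h : ∏ i ∈ J, f i = ∏ i, if i ∈ J then f i else 1 := by
    rw [← prod_filter]
    simp
  rw [h, Fin.prod_univ_succ, prod_filter]

/-- the main inequality of the induction -/
lemma sandwich {N : ℕ} {w P R0 Rp Rm : ℕ → ℝ} {η ε W Ap Am : ℝ} (hη0 : 0 < η) (hη1 : η ≤ 1 / 8) (hε : ε = 8 * η)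
    (hw : ∀ a ∈ Icc 1 N, 0 ≤ w a) (hP : ∀ a ∈ Icc 1 N, 0 ≤ P a)
    (h1 : ∀ a ∈ Icc 1 N, R0 a ≤ (1 + η) * Rp a) (h2 : ∀ a ∈ Icc 1 N, Rm a ≤ (1 + η) * R0 a)
    (hAp : |Ap - W| ≤ η * W) (hAm : |Am - W| ≤ η * W) (hW : 0 < W)
    (h3 : |∑ a ∈ Icc 1 N, w a * Rp a * P a - Ap| ≤ η * Ap) (h4 : |∑ a ∈ Icc 1 N, w a * Rm a * P a - Am| ≤ η * Am) :
    |∑ a ∈ Icc 1 N, w a * (R0 a * P a) - W| ≤ ε * W := by
  have e1 : ∑ a ∈ Icc 1 N, w a * (R0 a * P a) ≤ (1 + η) * ∑ a ∈ Icc 1 N, w a * Rp a * P a := by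
    rw [mul_sum]
    apply sum_le_sum
    intro a ha
    calc w a * (R0 a * P a) ≤ w a * (((1 + η) * Rp a) * P a) := by
          apply mul_le_mul_of_nonneg_left _ (hw a ha)
          exact mul_le_mul_of_nonneg_right (h1 a ha) (hP a ha)
      _ = _ := by ring
  have e2 : ∑ a ∈ Icc 1 N, w a * Rm a * P a ≤ (1 + η) * ∑ a ∈ Icc 1 N, w a * (R0 a * P a) := by
    rw [mul_sum]
    apply sum_le_sum
    intro a ha
    calc w a * Rm a * P a = w a * (Rm a * P a) := by ring
      _ ≤ w a * (((1 + η) * R0 a) * P a) := by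
          apply mul_le_mul_of_nonneg_left _ (hw a ha)
          exact mul_le_mul_of_nonneg_right (h2 a ha) (hP a ha)
      _ = _ := by ring
  obtain ⟨X, hX⟩ : ∃ X, X = ∑ a ∈ Icc 1 N, w a * (R0 a * P a) := ⟨_, rfl⟩
  obtain ⟨Xp, hXp⟩ : ∃ X, X = ∑ a ∈ Icc 1 N, w a * Rp a * P a := ⟨_, rfl⟩
  obtain ⟨Xm, hXm⟩ : ∃ X, X = ∑ a ∈ Icc 1 N, w a * Rm a * P a := ⟨_, rfl⟩
  rw [← hX, ← hXp] at e1
  rw [← hX, ← hXm] at e2
  rw [← hXp] at h3
  rw [← hXm] at h4
  rw [← hX, hε]
  have a1 := (abs_le.1 hAp).2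
  have a2 := (abs_le.1 hAm).1
  have a3 := (abs_le.1 h3).2
  have a4 := (abs_le.1 h4).1
  rw [abs_le]
  constructor
  · have b1 : (1 - η) * Am ≤ Xm := by linarith
    have b2 : (1 - η) * ((1 - η) * W) ≤ (1 - η) * Am := mul_le_mul_of_nonneg_left (by linarith) (by linarith)
    have b3 : (1 - η) * ((1 - η) * W) ≤ (1 + η) * X := b2.trans (b1.trans e2)
    by_contra hcon
    push Not at hcon
    have b4 : X < (1 - 8 * η) * W := by linarith
    have b5 : (1 + η) * X < (1 + η) * ((1 - 8 * η) * W) := mul_lt_mul_of_pos_left b4 (by linarith)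
    have b6 : 0 < η * W := by positivity
    nlinarith
  · have b1 : Xp ≤ (1 + η) * Ap := by linarith
    have b2 : Xp ≤ (1 + η) * ((1 + η) * W) := b1.trans (mul_le_mul_of_nonneg_left (by linarith) (by linarith))
    have b3 : X ≤ (1 + η) * ((1 + η) * ((1 + η) * W)) := e1.trans (mul_le_mul_of_nonneg_left b2 (by linarith))
    have b5 : η * η ≤ η * (1 / 8) := mul_le_mul_of_nonneg_left hη1 hη0.le
    have b6 : η * η * η ≤ η * η * 1 := mul_le_mul_of_nonneg_left (by linarith) (by positivity)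
    have b4 : (1 + η) * (1 + η) * (1 + η) ≤ 1 + 8 * η := by nlinarith
    nlinarith

theorem kstep (k : ℕ) : ∀ (p : Fin k → ℕ) (A B C U : ℕ) (ε : ℝ), 0 < ε → ε ≤ 1 → ∃ K : ℕ, ∀ᶠ N : ℕ in atTop,
    ∀ (x : Fin k → ℕ) (r : Fin k → ℕ → ℝ), (∀ i, Near A (p i) B C N (x i) (r i)) →
    ∀ w : ℕ → ℝ, Adm C N w → ∀ S : Finset (Fin k → ℕ), S ⊆ Fintype.piFinset (fun i => Icc 1 (x i)) →
      (∀ m ∈ S, ∃ b : Fin k → ℕ, (∀ i, 1 ≤ b i ∧ |(b i : ℝ) - r i (m i)| ≤ Real.log N ^ A) ∧ ¬ Unc ε K N w b) →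
      (S.card : ℝ) ≤ (∏ i, (x i : ℝ)) / Real.log N ^ U := by
  classical
  induction k with
  | zero =>
    intro p A B C U ε hε hε1
    refine ⟨0, ?_⟩
    filter_upwards [ev_L 1] with N hL x r hN w hw S hS hb
    have hSe : S = ∅ := by
      rw [eq_empty_iff_forall_notMem]
      intro m hm
      obtain ⟨b, -, hb2⟩ := hb m hm
      apply hb2
      intro J y _
      have hJ : J = ∅ := by
        rw [eq_empty_iff_forall_notMem]
        intro i
        exact Fin.elim0 i
      subst hJ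
      simp only [prod_empty, mul_one, sub_self, abs_zero]
      exact mul_nonneg hε.le (sum_nonneg fun a ha => hw.1 a ha)
    rw [hSe]
    simp only [card_empty, Nat.cast_zero]
    positivity
  | succ k ih =>
    intro p A B C U ε hε hε1
    obtain ⟨η, hη⟩ : ∃ η, η = ε / 8 := ⟨_, rfl⟩
    have hη0 : 0 < η := by rw [hη]; positivity
    have hη1 : η ≤ 1 / 8 := by rw [hη]; linarith
    obtain ⟨K₁, hK₁⟩ := step (p 0) B (C + 2) (U + 1) η hη0 (by linarith)
    obtain ⟨K₂, hK₂⟩ := ih (fun i => p i.succ) A B (C + 2) (U + A + 5) η hη0 (by linarith)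
    obtain ⟨δ, hδ⟩ : ∃ δ, δ = η / 2 := ⟨_, rfl⟩
    have hδ0 : 0 < δ := by rw [hδ]; positivity
    refine ⟨max K₁ K₂ + 1, ?_⟩
    filter_upwards [hK₁, hK₂, ev_L (2 / δ + 4), ev_L (B + 3), eventually_ge_atTop 16] with
      N h1 h2 hL1 hL2 hN16 x r hr w hw S hS hb
    obtain ⟨K, hK⟩ : ∃ K, K = max K₁ K₂ := ⟨_, rfl⟩
    rw [← hK] at hb
    have hNr : (16 : ℝ) ≤ N := by exact_mod_cast hN16
    have hN0 : (0 : ℝ) < N := by linarith
    obtain ⟨ℓ, hℓ⟩ : ∃ ℓ, ℓ = Real.log N := ⟨_, rfl⟩
    rw [← hℓ] at hL1 hL2 ⊢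
    have h2d : 0 < 2 / δ := by positivity
    have hℓ4 : 4 ≤ ℓ := by linarith
    have hℓ1 : 1 ≤ ℓ := by linarith
    have hℓ0 : 0 < ℓ := by linarith
    obtain ⟨hw0, hw1, hwN⟩ := hw
    obtain ⟨W, hW⟩ : ∃ W, W = ∑ a ∈ Icc 1 N, w a := ⟨_, rfl⟩
    rw [← hW, ← hℓ] at hwN
    have hW0 : 0 < W := by
      by_contra hcon
      push Not at hcon
      have : ℓ ^ C * W ≤ 0 := mul_nonpos_of_nonneg_of_nonpos (by positivity) hcon
      linarith
    -- the windows are below `B N`
    have hbd : ∀ i, ∀ m ∈ Icc 1 (x i), ∀ b : ℕ, |(b : ℝ) - r i m| ≤ ℓ ^ A → b ≤ B * N := by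
      intro i m hm b hb'
      obtain ⟨s, hs1, -, hs3⟩ := hr i (fun z => z = (b : ℤ))
      have h3 := hs3 m ⟨(b : ℤ), by rw [← hℓ]; exact_mod_cast hb', rfl⟩
      have h4 := hs1 m hm
      rw [h3, abs_of_nonneg (Nat.cast_nonneg b)] at h4
      exact_mod_cast h4
    -- bad members of the first family
    obtain ⟨Bad, hBad⟩ : ∃ Bad : Finset ℕ, Bad = (Icc 1 (x 0)).filter (fun m =>
      ∃ b : ℕ, 1 ≤ b ∧ |(b : ℝ) - r 0 m| ≤ ℓ ^ A ∧ ¬ Avg η K₁ N w b) := ⟨_, rfl⟩
    have hBadc : (Bad.card : ℝ) ≤ x 0 / ℓ ^ (U + 1) := by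
      refine (hr 0).count (fun b : ℤ => 0 < b ∧ ¬ Avg η K₁ N w b.toNat) _ ?_ _ (by rw [hBad]; exact filter_subset _ _) ?_
      · intro s hs hE T hT hTP
        rw [hℓ]
        refine h1 (x 0) s hs (hE.trans ?_) w hw0 (fun a ha => (hw1 a ha).trans ?_) ?_ T hT hTP
        · rw [← hℓ]
          apply mul_le_mul_of_nonneg_right _ (by positivity)
          exact pow_le_pow_right₀ hℓ1 (by omega)
        · rw [← hℓ]
          exact pow_le_pow_right₀ hℓ1 (by omega)
        · rw [← hℓ, ← hW]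
          refine hwN.trans ?_
          apply mul_le_mul_of_nonneg_right _ hW0.le
          exact pow_le_pow_right₀ hℓ1 (by omega)
      · intro m hm
        rw [hBad] at hm
        obtain ⟨_, b, hb1, hb2, hb3⟩ := mem_filter.1 hm
        exact ⟨(b : ℤ), by rw [← hℓ]; exact_mod_cast hb2, by exact_mod_cast hb1, by rw [Int.toNat_natCast]; exact hb3⟩
    obtain ⟨P0, hP0⟩ : ∃ P0 : ℝ, P0 = ∏ i : Fin k, (x i.succ : ℝ) := ⟨_, rfl⟩
    have hP00 : 0 ≤ P0 := by rw [hP0]; exact prod_nonneg fun _ _ => Nat.cast_nonneg _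
    -- the fibres
    have htail : ∀ m0, (((S.filter (fun m => m 0 = m0)).image Fin.tail).card : ℝ) = (S.filter (fun m => m 0 = m0)).card := by
      intro m0
      rw [card_image_of_injOn]
      intro m hm m' hm' he
      simp only [coe_filter, Set.mem_ofPred_eq] at hm hm'
      rw [← Fin.cons_self_tail m, ← Fin.cons_self_tail m', he, hm.2, hm'.2]
    have htailsub : ∀ m0, (S.filter (fun m => m 0 = m0)).image Fin.tail ⊆ Fintype.piFinset (fun i : Fin k => Icc 1 (x i.succ)) := by
      intro m0 m hm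
      obtain ⟨m', hm', rfl⟩ := mem_image.1 hm
      rw [Fintype.mem_piFinset]
      intro i
      exact Fintype.mem_piFinset.1 (hS (mem_filter.1 hm').1) i.succ
    have hfibBad : ∀ m0, ((S.filter (fun m => m 0 = m0)).card : ℝ) ≤ P0 := by
      intro m0
      rw [← htail m0, hP0]
      have h3 := card_le_card (htailsub m0)
      rw [Fintype.card_piFinset] at h3
      simp only [Nat.card_Icc, Nat.add_sub_cancel] at h3
      exact_mod_cast h3
    have hfib : ∀ m0 ∈ Icc 1 (x 0), m0 ∉ Bad → ((S.filter (fun m => m 0 = m0)).card : ℝ) ≤ P0 / ℓ ^ (U + 1) := by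
      intro m0 hm0 hm0B
      obtain ⟨Wn, hWn⟩ : ∃ Wn : Finset ℕ, Wn = (Icc 1 (B * N)).filter (fun b : ℕ => |(b : ℝ) - r 0 m0| ≤ ℓ ^ A) := ⟨_, rfl⟩
      have hgoodb : ∀ b ∈ Wn, Avg η K₁ N w b := by
        intro b hb'
        by_contra hcon
        rw [hWn, mem_filter, mem_Icc] at hb'
        apply hm0B
        rw [hBad, mem_filter]
        exact ⟨hm0, b, hb'.1.1, hb'.2, hcon⟩
      -- the lengths and the weights
      obtain ⟨len, hlen⟩ : ∃ len : ℕ × Bool → ℝ, len = fun q =>
        if q.2 then N * Real.exp (-(δ * q.1)) else (1 - δ) * (N * Real.exp (-(δ * q.1))) := ⟨_, rfl⟩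
      obtain ⟨v, hv⟩ : ∃ v : ℕ × (ℕ × Bool) → ℕ → ℝ, v = fun q a => w a * R ((a + q.1 : ℕ) : ℝ) (len q.2) := ⟨_, rfl⟩
      obtain ⟨T, hT⟩ : ∃ T : Finset (ℕ × Bool), T = range (⌊Real.log N / δ⌋₊ + 1) ×ˢ univ := ⟨_, rfl⟩
      have hTc : (T.card : ℝ) ≤ ℓ ^ 2 := by
        rw [hT, card_product, card_range, card_univ, Fintype.card_bool]
        push_cast
        have h3 : (⌊Real.log N / δ⌋₊ : ℝ) ≤ ℓ / δ := by
          rw [hℓ]; exact Nat.floor_le (div_nonneg (by rw [← hℓ]; linarith) hδ0.le)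
        have h4 : ℓ / δ = ℓ * (2 / δ) / 2 := by ring
        have h5 : ℓ * (2 / δ) ≤ ℓ * (ℓ - 4) := mul_le_mul_of_nonneg_left (by linarith) hℓ0.le
        nlinarith
      obtain ⟨V, hV⟩ : ∃ V : Finset (Fin k → ℕ), V = (S.filter (fun m => m 0 = m0)).image Fin.tail := ⟨_, rfl⟩
      obtain ⟨near, hnear⟩ : ∃ near : (Fin k → ℕ) → (Fin k → ℕ) → Prop, near = fun m' b' =>
        ∀ i, 1 ≤ b' i ∧ |(b' i : ℝ) - r i.succ (m' i)| ≤ ℓ ^ A := ⟨_, rfl⟩
      obtain ⟨G, hG⟩ : ∃ G : (ℕ → ℝ) → Finset (Fin k → ℕ), G = fun u => V.filter (fun m' =>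
        Adm (C + 2) N u ∧ ∃ b', near m' b' ∧ ¬ Unc η K₂ N u b') := ⟨_, rfl⟩
      have hGc : ∀ u, ((G u).card : ℝ) ≤ P0 / ℓ ^ (U + A + 5) := by
        intro u
        by_cases hu : Adm (C + 2) N u
        · rw [hP0, hℓ]
          refine h2 (fun i => x i.succ) (fun i => r i.succ) (fun i P => ?_) u hu (G u) ?_ ?_
          · obtain ⟨s, hs1, hs2, hs3⟩ := hr i.succ P
            refine ⟨s, hs1, hs2.trans ?_, hs3⟩
            rw [← hℓ]
            apply mul_le_mul_of_nonneg_right _ (by positivity)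
            exact pow_le_pow_right₀ hℓ1 (by omega)
          · rw [hG]
            refine (filter_subset _ _).trans ?_
            rw [hV]
            exact htailsub m0
          · intro m' hm'
            rw [hG] at hm'
            obtain ⟨-, -, b', hb1, hb2⟩ := mem_filter.1 hm'
            rw [hnear] at hb1
            rw [hℓ] at hb1
            exact ⟨b', hb1, hb2⟩
        · have : G u = ∅ := by
            rw [hG, filter_eq_empty_iff]
            intro m' _ hcon
            exact hu hcon.1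
          rw [this]
          simp only [card_empty, Nat.cast_zero]
          positivity
      have hcov : V ⊆ G w ∪ (Wn ×ˢ T).biUnion (fun q => G (v q)) := by
        intro m' hm'
        have hm'V := hm'
        rw [hV] at hm'
        obtain ⟨m, hm, rfl⟩ := mem_image.1 hm'
        obtain ⟨hmS, hmm⟩ := mem_filter.1 hm
        obtain ⟨b, hb1, hb2⟩ := hb m hmS
        rw [← hℓ] at hb1
        by_contra hcon
        rw [mem_union, not_or] at hcon
        obtain ⟨hc1, hc2⟩ := hcon
        apply hb2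
        intro J y hy
        rw [← hW]
        rw [← hℓ] at hy
        have hnr : near (Fin.tail m) (Fin.tail b) := by
          rw [hnear]
          exact fun i => hb1 i.succ
        have hwadm : Adm (C + 2) N w := by
          refine ⟨hw0, fun a ha => (hw1 a ha).trans ?_, ?_⟩
          · rw [← hℓ]
            exact pow_le_pow_right₀ hℓ1 (by omega)
          · rw [← hℓ, ← hW]
            refine hwN.trans ?_
            apply mul_le_mul_of_nonneg_right _ hW0.le
            exact pow_le_pow_right₀ hℓ1 (by omega)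
        have hyK : ∀ i, ℓ ^ K₂ ≤ y i ∧ y i ≤ N := fun i =>
          ⟨(pow_le_pow_right₀ hℓ1 (by rw [hK]; omega)).trans (hy i).1, (hy i).2⟩
        by_cases h0 : (0 : Fin (k + 1)) ∈ J
        swap
        · -- the first factor is absent
          have h3 : Unc η K₂ N w (Fin.tail b) := by
            by_contra hcc
            apply hc1
            rw [hG, mem_filter]
            exact ⟨hm'V, hwadm, Fin.tail b, hnr, hcc⟩
          have h4 := h3 (univ.filter (fun i : Fin k => i.succ ∈ J)) (fun i => y i.succ)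
            (fun i => by rw [← hℓ]; exact hyK i.succ)
          rw [← hW] at h4
          have h5 : ∀ a, ∏ i ∈ J, R ((a + b i : ℕ) : ℝ) (y i) =
              ∏ i ∈ univ.filter (fun i : Fin k => i.succ ∈ J), R ((a + Fin.tail b i : ℕ) : ℝ) (y i.succ) := by
            intro a
            rw [prod_split, if_neg h0, one_mul]
            rfl
          simp only [h5]
          refine h4.trans ?_
          apply mul_le_mul_of_nonneg_right _ hW0.le
          rw [hη]
          linarith
        · -- the first factor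
          have hyone : 1 ≤ y 0 := (one_le_pow₀ hℓ1).trans (hy 0).1
          obtain ⟨c1, c2, c3⟩ := classes (by omega) hδ0 hyone (hy 0).2
          obtain ⟨j, hj⟩ : ∃ j, j = ⌊Real.log (N / y 0) / δ⌋₊ := ⟨_, rfl⟩
          rw [← hj] at c1 c2 c3
          obtain ⟨Y, hY⟩ : ∃ Y, Y = N * Real.exp (-(δ * j)) := ⟨_, rfl⟩
          rw [← hY] at c2 c3
          have hYN : Y ≤ N := by
            rw [hY]
            have h6 : Real.exp (-(δ * j)) ≤ 1 := by
              apply Real.exp_le_one_iff.2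
              have : 0 ≤ δ * (j : ℝ) := by positivity
              linarith
            nlinarith
          have hy0 : 0 < y 0 := by linarith
          have hY0 : 0 < Y := by linarith
          have hδ1 : δ ≤ 1 / 16 := by rw [hδ]; linarith
          have hq : ∀ t : Bool, (j, t) ∈ T := by
            intro t
            rw [hT, mem_product]
            exact ⟨c1, mem_univ _⟩
          have hb0W : b 0 ∈ Wn := by
            rw [hWn, mem_filter, mem_Icc]
            have h6 := hb1 0
            rw [hmm] at h6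
            exact ⟨⟨h6.1, hbd 0 m0 hm0 _ h6.2⟩, h6.2⟩
          have hlt : len (j, true) = Y := by rw [hlen, hY]; simp
          have hlf : len (j, false) = (1 - δ) * Y := by rw [hlen, hY]; simp
          have hl1 : ∀ t : Bool, ℓ ^ K₁ ≤ len (j, t) ∧ len (j, t) ≤ N ∧ 0 < len (j, t) := by
            have h6 : ℓ ^ K ≤ (1 - δ) * Y := by
              calc ℓ ^ K = 1 * ℓ ^ K := (one_mul _).symm
                _ ≤ ((1 - δ) * ℓ) * ℓ ^ K := by
                    apply mul_le_mul_of_nonneg_right _ (by positivity)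
                    nlinarith
                _ = (1 - δ) * ℓ ^ (K + 1) := by ring
                _ ≤ (1 - δ) * Y := by
                    apply mul_le_mul_of_nonneg_left _ (by linarith)
                    exact (hy 0).1.trans c2
            have h7 : ℓ ^ K₁ ≤ ℓ ^ K := pow_le_pow_right₀ hℓ1 (by rw [hK]; omega)
            have h8 : (1 - δ) * Y ≤ Y := by nlinarith
            have h9 : 0 < (1 - δ) * Y := mul_pos (by linarith) hY0
            intro t
            rcases t with _ | _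
            · rw [hlf]
              exact ⟨h7.trans h6, h8.trans hYN, h9⟩
            · rw [hlt]
              exact ⟨h7.trans (h6.trans h8), hYN, hY0⟩
          have hD : ∀ t : Bool, |∑ a ∈ Icc 1 N, v (b 0, (j, t)) a - W| ≤ η * W := by
            intro t
            have h6 := hgoodb (b 0) hb0W (len (j, t)) (by rw [← hℓ]; exact (hl1 t).1) (hl1 t).2.1
            unfold D at h6
            rw [← hW] at h6
            have h7 : ∑ a ∈ Icc 1 N, w a * (R ((a + b 0 : ℕ) : ℝ) (len (j, t)) - 1) =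
                ∑ a ∈ Icc 1 N, v (b 0, (j, t)) a - W := by
              rw [hv, hW, ← sum_sub_distrib]
              apply sum_congr rfl
              intro a _
              ring
            rwa [h7] at h6
          have hadm : ∀ t : Bool, Adm (C + 2) N (v (b 0, (j, t))) := by
            intro t
            refine ⟨fun a ha => ?_, fun a ha => ?_, ?_⟩
            · rw [hv]
              exact mul_nonneg (hw0 a ha) (R_nonneg _ _ (hl1 t).2.2.le)
            · rw [hv, ← hℓ]
              have h6 := R_le (a + b 0) _ (hl1 t).2.2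
              have h6' := R_nonneg (a + b 0) _ (hl1 t).2.2.le
              have h7 : Real.log ((a + b 0 : ℕ) : ℝ) ≤ ℓ ^ 2 := by
                have h8 : ((a + b 0 : ℕ) : ℝ) ≤ (B + 3) * N := by
                  have h9 : a + b 0 ≤ (B + 3) * N := by
                    have h10 := (mem_Icc.1 ha).2
                    rw [hWn, mem_filter, mem_Icc] at hb0W
                    have h11 := hb0W.1.2
                    nlinarith
                  exact_mod_cast h9
                have h9 : 0 < ((a + b 0 : ℕ) : ℝ) := by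
                  have := (mem_Icc.1 ha).1
                  exact_mod_cast (by omega : 0 < a + b 0)
                calc Real.log ((a + b 0 : ℕ) : ℝ) ≤ Real.log ((B + 3) * N) := Real.log_le_log h9 h8
                  _ = Real.log (B + 3) + ℓ := by rw [Real.log_mul (by positivity) hN0.ne', ← hℓ]
                  _ ≤ ℓ + ℓ := by
                      have h3 := Real.log_le_sub_one_of_pos (show (0 : ℝ) < B + 3 by positivity)
                      linarith
                  _ ≤ ℓ ^ 2 := by nlinarith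
              calc w a * R ((a + b 0 : ℕ) : ℝ) (len (j, t)) ≤ ℓ ^ C * ℓ ^ 2 := by
                    apply mul_le_mul _ (h6.trans h7) h6' (by positivity)
                    have := hw1 a ha
                    rwa [← hℓ] at this
                _ = ℓ ^ (C + 2) := by ring
            · rw [← hℓ]
              have h6 := (abs_le.1 (hD t)).1
              have h7 : W ≤ 2 * ∑ a ∈ Icc 1 N, v (b 0, (j, t)) a := by nlinarith
              calc (N : ℝ) ≤ ℓ ^ C * W := hwN
                _ ≤ ℓ ^ C * (2 * ∑ a ∈ Icc 1 N, v (b 0, (j, t)) a) := by gcongr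
                _ = (2 * ℓ ^ C) * ∑ a ∈ Icc 1 N, v (b 0, (j, t)) a := by ring
                _ ≤ ℓ ^ (C + 2) * ∑ a ∈ Icc 1 N, v (b 0, (j, t)) a := by
                    apply mul_le_mul_of_nonneg_right _ (by linarith)
                    calc 2 * ℓ ^ C ≤ ℓ ^ 2 * ℓ ^ C := by
                          apply mul_le_mul_of_nonneg_right _ (by positivity)
                          nlinarith
                      _ = ℓ ^ (C + 2) := by ring
          have hU : ∀ t : Bool, Unc η K₂ N (v (b 0, (j, t))) (Fin.tail b) := by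
            intro t
            by_contra hcc
            apply hc2
            rw [mem_biUnion]
            refine ⟨(b 0, (j, t)), mem_product.2 ⟨hb0W, hq t⟩, ?_⟩
            rw [hG, mem_filter]
            exact ⟨hm'V, hadm t, Fin.tail b, hnr, hcc⟩
          obtain ⟨Pr, hPr⟩ : ∃ Pr : ℕ → ℝ, Pr = fun a =>
            ∏ i ∈ univ.filter (fun i : Fin k => i.succ ∈ J), R ((a + Fin.tail b i : ℕ) : ℝ) (y i.succ) := ⟨_, rfl⟩
          have hpr : ∀ t : Bool, |∑ a ∈ Icc 1 N, w a * R ((a + b 0 : ℕ) : ℝ) (len (j, t)) * Pr a -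
              ∑ a ∈ Icc 1 N, v (b 0, (j, t)) a| ≤ η * ∑ a ∈ Icc 1 N, v (b 0, (j, t)) a := by
            intro t
            have h6 := hU t (univ.filter (fun i : Fin k => i.succ ∈ J)) (fun i => y i.succ)
              (fun i => by rw [← hℓ]; exact hyK i.succ)
            rw [hPr]
            rw [hv] at h6 ⊢
            exact h6
          have h5 : ∀ a, ∏ i ∈ J, R ((a + b i : ℕ) : ℝ) (y i) = R ((a + b 0 : ℕ) : ℝ) (y 0) * Pr a := by
            intro a
            rw [prod_split, if_pos h0, hPr]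
            rfl
          simp only [h5]
          refine sandwich (Rp := fun a => R ((a + b 0 : ℕ) : ℝ) (len (j, true)))
            (Rm := fun a => R ((a + b 0 : ℕ) : ℝ) (len (j, false))) hη0 hη1 (by rw [hη]; ring) hw0 ?_ ?_ ?_
            (hD true) (hD false) hW0 (hpr true) (hpr false)
          · intro a _
            rw [hPr]
            exact prod_nonneg fun i _ => R_nonneg _ _ ((pow_pos hℓ0 _).le.trans (hyK i.succ).1)
          · intro a _
            rw [hlt]
            refine R_compare _ hy0 hη0.le c2 ?_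
            rw [show η = 2 * δ by rw [hδ]; ring]
            nlinarith
          · intro a _
            rw [hlf]
            refine R_compare _ (mul_pos (by linarith) hY0) hη0.le c3 ?_
            rw [show η = 2 * δ by rw [hδ]; ring]
            nlinarith
      have hWc : (Wn.card : ℝ) ≤ 2 * ℓ ^ A + 1 := by
        rw [hWn]
        exact card_window _ _ _ (by positivity)
      have hVc : (V.card : ℝ) ≤ P0 / ℓ ^ (U + A + 5) + (Wn.card * T.card) * (P0 / ℓ ^ (U + A + 5)) := by
        have h3 : (V.card : ℝ) ≤ ((G w).card : ℝ) + ∑ q ∈ Wn ×ˢ T, ((G (v q)).card : ℝ) := by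
          have h4 := (card_le_card hcov).trans (card_union_le _ _)
          have h5 : ((Wn ×ˢ T).biUnion (fun q => G (v q))).card ≤ ∑ q ∈ Wn ×ˢ T, (G (v q)).card := card_biUnion_le
          have h6 := h4.trans (Nat.add_le_add_left h5 _)
          exact_mod_cast h6
        refine h3.trans ?_
        apply add_le_add (hGc w)
        calc ∑ q ∈ Wn ×ˢ T, ((G (v q)).card : ℝ) ≤ ∑ _q ∈ Wn ×ˢ T, P0 / ℓ ^ (U + A + 5) := sum_le_sum fun q _ => hGc _
          _ = (Wn.card * T.card) * (P0 / ℓ ^ (U + A + 5)) := by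
              rw [sum_const, nsmul_eq_mul, card_product]
              push_cast
              ring
      rw [← htail m0, ← hV]
      refine hVc.trans ?_
      have hA1 : 1 ≤ ℓ ^ A := one_le_pow₀ hℓ1
      have h3 : 1 + (Wn.card : ℝ) * T.card ≤ ℓ ^ (A + 4) := by
        calc 1 + (Wn.card : ℝ) * T.card ≤ 1 + (2 * ℓ ^ A + 1) * ℓ ^ 2 := by gcongr
          _ ≤ 1 + (3 * ℓ ^ A) * ℓ ^ 2 := by gcongr; linarith
          _ ≤ ℓ ^ A * ℓ ^ 2 + (3 * ℓ ^ A) * ℓ ^ 2 := by
              have : (1 : ℝ) ≤ ℓ ^ A * ℓ ^ 2 := by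
                have : (1 : ℝ) ≤ ℓ ^ 2 := one_le_pow₀ hℓ1
                nlinarith
              linarith
          _ = 4 * (ℓ ^ A * ℓ ^ 2) := by ring
          _ ≤ ℓ ^ 2 * (ℓ ^ A * ℓ ^ 2) := by
              apply mul_le_mul_of_nonneg_right _ (by positivity)
              nlinarith
          _ = ℓ ^ (A + 4) := by ring
      calc P0 / ℓ ^ (U + A + 5) + (Wn.card * T.card) * (P0 / ℓ ^ (U + A + 5))
          = (1 + Wn.card * T.card) * (P0 / ℓ ^ (U + A + 5)) := by ring
        _ ≤ ℓ ^ (A + 4) * (P0 / ℓ ^ (U + A + 5)) := by gcongr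
        _ = P0 / ℓ ^ (U + 1) := by
            rw [show U + A + 5 = (A + 4) + (U + 1) by ring, pow_add ℓ (A + 4) (U + 1)]
            field_simp
    -- the total
    have htot : (S.card : ℝ) = ∑ m0 ∈ Icc 1 (x 0), ((S.filter (fun m => m 0 = m0)).card : ℝ) := by
      have h3 := card_eq_sum_card_fiberwise (f := fun m : Fin (k + 1) → ℕ => m 0) (s := S) (t := Icc 1 (x 0))
        (fun m hm => Fintype.mem_piFinset.1 (hS hm) 0)
      exact_mod_cast h3
    rw [htot, Fin.prod_univ_succ, ← hP0]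
    calc ∑ m0 ∈ Icc 1 (x 0), ((S.filter (fun m => m 0 = m0)).card : ℝ)
        ≤ ∑ m0 ∈ Icc 1 (x 0), ((if m0 ∈ Bad then P0 else 0) + P0 / ℓ ^ (U + 1)) := by
          apply sum_le_sum
          intro m0 hm0
          by_cases hB : m0 ∈ Bad
          · rw [if_pos hB]
            have := hfibBad m0
            have : 0 ≤ P0 / ℓ ^ (U + 1) := by positivity
            linarith
          · rw [if_neg hB, zero_add]
            exact hfib m0 hm0 hB
      _ = Bad.card * P0 + x 0 * (P0 / ℓ ^ (U + 1)) := by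
          have hBf : (Icc 1 (x 0)).filter (fun m0 => m0 ∈ Bad) = Bad := by
            ext m
            rw [mem_filter]
            refine ⟨fun h => h.2, fun h => ⟨?_, h⟩⟩
            rw [hBad] at h
            exact (mem_filter.1 h).1
          rw [sum_add_distrib, sum_const, nsmul_eq_mul, Nat.card_Icc, Nat.add_sub_cancel, ← sum_filter, hBf, sum_const,
            nsmul_eq_mul]
      _ ≤ (x 0 / ℓ ^ (U + 1)) * P0 + x 0 * (P0 / ℓ ^ (U + 1)) := by gcongr
      _ = (2 * (x 0 * P0)) / ℓ ^ (U + 1) := by ring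
      _ ≤ (ℓ * (x 0 * P0)) / ℓ ^ (U + 1) := by gcongr; linarith
      _ = x 0 * P0 / ℓ ^ U := by
          rw [pow_succ]
          field_simp

end Pool.Agent.H82.UC
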