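import Pool.Agent.H82.UC.KStep
import Pool.Graph.R_seed8.TH646.TT.Grid

set_option autoImplicit false

/-! Many points with primes in all `k` windows: induction on `k`. -/

namespace Pool.Agent.H82.UC
open Finset Filter
open Pool.Agent.H373R2.T7 (energy)
open Pool.Agent.W301.SS (ev_L ev_log pn GG cs)
open Pool.Agent.Q56.TF (Near)

lemma pn_mono (n : ℕ) {y y' : ℕ} (h : y ≤ y') : pn n y ≤ pn n y' := by
  unfold pn
  apply card_le_card
  intro p hp
  rw [mem_filter, mem_Ioc] at hp ⊢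
  exact ⟨⟨hp.1.1, by omega⟩, hp.2⟩

open Classical in
/-- many elements of `T` have at least `ε y i / log N` primes in all the windows `(a + b i, a + b i + y i]` -/
def Many (ε : ℝ) (K N : ℕ) (T : Finset ℕ) {k : ℕ} (b : Fin k → ℕ) : Prop :=
  ∀ y : Fin k → ℕ, (∀ i, Real.log N ^ K ≤ y i ∧ y i ≤ N) →
    (1 / 4 - 2 * ε) ^ k * (T.card : ℝ) ≤
      ((T.filter (fun a => ∀ i, ε * y i ≤ (pn (a + b i) (y i) : ℝ) * Real.log N)).card : ℝ)

theorem many (k : ℕ) : ∀ (p : Fin k → ℕ) (A B C U : ℕ) (ε : ℝ), 0 < ε → ε ≤ 1 / 16 → ∃ K : ℕ, ∀ᶠ N : ℕ in atTop,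
    ∀ (x : Fin k → ℕ) (r : Fin k → ℕ → ℝ), (∀ i, Near A (p i) B C N (x i) (r i)) →
    ∀ T : Finset ℕ, T ⊆ Icc 1 N → (N : ℝ) ≤ T.card * Real.log N ^ C →
    ∀ S : Finset (Fin k → ℕ), S ⊆ Fintype.piFinset (fun i => Icc 1 (x i)) →
      (∀ m ∈ S, ∃ b : Fin k → ℕ, (∀ i, 1 ≤ b i ∧ b i ≤ N ∧ |(b i : ℝ) - r i (m i)| ≤ Real.log N ^ A) ∧
        ¬ Many ε K N T b) →
      (S.card : ℝ) ≤ (∏ i, (x i : ℝ)) / Real.log N ^ U := by
  classical
  induction k with
  | zero =>
    intro p A B C U ε hε hε1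
    refine ⟨0, ?_⟩
    filter_upwards [ev_L 1] with N hL x r hN T hT hTN S hS hb
    have hSe : S = ∅ := by
      rw [eq_empty_iff_forall_notMem]
      intro m hm
      obtain ⟨b, -, hb2⟩ := hb m hm
      apply hb2
      intro y _
      rw [pow_zero, one_mul, filter_true_of_mem]
      intro a _ i
      exact Fin.elim0 i
    rw [hSe]
    simp only [card_empty, Nat.cast_zero]
    positivity
  | succ k ih =>
    intro p A B C U ε hε hε1
    obtain ⟨K₁, hK₁⟩ := Pool.Agent.TH646.TT.cnt_full (p 0) B (C + 1) (U + 1) (2 * ε) (by positivity) (by linarith)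
    obtain ⟨K₂, hK₂⟩ := ih (fun i => p i.succ) A B (C + 1) (U + A + 4) ε hε hε1
    refine ⟨max K₁ K₂ + 1, ?_⟩
    filter_upwards [hK₁, hK₂, ev_L 9, eventually_ge_atTop 16] with N h1 h2 hL1 hN16 x r hr T hT hTN S hS hb
    obtain ⟨K, hK⟩ : ∃ K, K = max K₁ K₂ := ⟨_, rfl⟩
    rw [← hK] at hb
    have hNr : (16 : ℝ) ≤ N := by exact_mod_cast hN16
    have hN0 : (0 : ℝ) < N := by linarith
    obtain ⟨ℓ, hℓ⟩ : ∃ ℓ, ℓ = Real.log N := ⟨_, rfl⟩
    rw [← hℓ] at hL1 hTN ⊢
    have hℓ1 : 1 ≤ ℓ := by linarith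
    have hℓ0 : 0 < ℓ := by linarith
    -- bad members of the first family
    obtain ⟨Full, hFull⟩ : ∃ Full : ℕ → Prop, Full = fun b => ∀ y : ℕ, Real.log N ^ K₁ ≤ y → y ≤ N →
        |cs T b y * Real.log N - T.card * y| ≤ (2 * ε) * (T.card * y) ∧
        (1 / 4 - 2 * ε) * T.card ≤ (GG T N b y (2 * ε)).card := ⟨_, rfl⟩
    obtain ⟨Bad, hBad⟩ : ∃ Bad : Finset ℕ, Bad = (Icc 1 (x 0)).filter (fun m =>
      ∃ b : ℕ, 1 ≤ b ∧ b ≤ N ∧ |(b : ℝ) - r 0 m| ≤ ℓ ^ A ∧ ¬ Full b) := ⟨_, rfl⟩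
    have hBadc : (Bad.card : ℝ) ≤ x 0 / ℓ ^ (U + 1) := by
      refine (hr 0).count (fun b : ℤ => 0 < b ∧ b ≤ N ∧ ¬ Full b.toNat) _ ?_ _
        (by rw [hBad]; exact filter_subset _ _) ?_
      · intro s hs hE T' hT' hTP
        rw [hℓ]
        refine h1 (x 0) s hs (hE.trans ?_) T hT ?_ T' hT' ?_
        · rw [← hℓ]
          apply mul_le_mul_of_nonneg_right _ (by positivity)
          exact pow_le_pow_right₀ hℓ1 (by omega)
        · rw [← hℓ]
          refine hTN.trans ?_
          apply mul_le_mul_of_nonneg_left _ (Nat.cast_nonneg _)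
          exact pow_le_pow_right₀ hℓ1 (by omega)
        · intro m hm
          have h3 := hTP m hm
          rw [hFull] at h3
          exact h3
      · intro m hm
        rw [hBad] at hm
        obtain ⟨_, b, hb1, hb2, hb3, hb4⟩ := mem_filter.1 hm
        exact ⟨(b : ℤ), by rw [← hℓ]; exact_mod_cast hb3, by exact_mod_cast hb1, by exact_mod_cast hb2,
          by rw [Int.toNat_natCast]; exact hb4⟩
    obtain ⟨P0, hP0⟩ : ∃ P0 : ℝ, P0 = ∏ i : Fin k, (x i.succ : ℝ) := ⟨_, rfl⟩
    have hP00 : 0 ≤ P0 := by rw [hP0]; exact prod_nonneg fun _ _ => Nat.cast_nonneg _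
    -- the fibres
    have htail : ∀ m0, (((S.filter (fun m => m 0 = m0)).image Fin.tail).card : ℝ) =
        (S.filter (fun m => m 0 = m0)).card := by
      intro m0
      rw [card_image_of_injOn]
      intro m hm m' hm' he
      simp only [coe_filter, Set.mem_ofPred_eq] at hm hm'
      rw [← Fin.cons_self_tail m, ← Fin.cons_self_tail m', he, hm.2, hm'.2]
    have htailsub : ∀ m0, (S.filter (fun m => m 0 = m0)).image Fin.tail ⊆
        Fintype.piFinset (fun i : Fin k => Icc 1 (x i.succ)) := by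
      intro m0 m hm
      obtain ⟨m', hm', rfl⟩ := mem_image.1 hm
      rw [Fintype.mem_piFinset]
      intro i
      exact Fintype.mem_piFinset.1 (hS (mem_filter.1 hm').1) i.succ
    have hfibBad : ∀ m0, ((S.filter (fun m => m 0 = m0)).card : ℝ) ≤ P0 := by
      intro m0
      rw [← htail m0, hP0]
      have h3 := card_le_card (htailsub m0)
      rw [Fintype.card_piFinset] at h3
      simp only [Nat.card_Icc, Nat.add_sub_cancel] at h3
      exact_mod_cast h3
    have hfib : ∀ m0 ∈ Icc 1 (x 0), m0 ∉ Bad → ((S.filter (fun m => m 0 = m0)).card : ℝ) ≤ P0 / ℓ ^ (U + 1) := by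
      intro m0 hm0 hm0B
      obtain ⟨Wn, hWn⟩ : ∃ Wn : Finset ℕ, Wn = (Icc 1 N).filter (fun b : ℕ => |(b : ℝ) - r 0 m0| ≤ ℓ ^ A) := ⟨_, rfl⟩
      have hgoodb : ∀ b ∈ Wn, Full b := by
        intro b hb'
        by_contra hcon
        rw [hWn, mem_filter, mem_Icc] at hb'
        apply hm0B
        rw [hBad, mem_filter]
        exact ⟨hm0, b, hb'.1.1, hb'.1.2, hb'.2, hcon⟩
      obtain ⟨V, hV⟩ : ∃ V : Finset (Fin k → ℕ), V = (S.filter (fun m => m 0 = m0)).image Fin.tail := ⟨_, rfl⟩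
      obtain ⟨near, hnear⟩ : ∃ near : (Fin k → ℕ) → (Fin k → ℕ) → Prop, near = fun m' b' =>
        ∀ i, 1 ≤ b' i ∧ b' i ≤ N ∧ |(b' i : ℝ) - r i.succ (m' i)| ≤ ℓ ^ A := ⟨_, rfl⟩
      obtain ⟨G, hG⟩ : ∃ G : Finset ℕ → Finset (Fin k → ℕ), G = fun u => V.filter (fun m' =>
        (u ⊆ Icc 1 N ∧ (N : ℝ) ≤ u.card * Real.log N ^ (C + 1)) ∧ ∃ b', near m' b' ∧ ¬ Many ε K₂ N u b') := ⟨_, rfl⟩
      have hGc : ∀ u, ((G u).card : ℝ) ≤ P0 / ℓ ^ (U + A + 4) := by
        intro u
        by_cases hu : u ⊆ Icc 1 N ∧ (N : ℝ) ≤ u.card * Real.log N ^ (C + 1)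
        · rw [hP0, hℓ]
          refine h2 (fun i => x i.succ) (fun i => r i.succ) (fun i P => ?_) u hu.1 hu.2 (G u) ?_ ?_
          · obtain ⟨s, hs1, hs2, hs3⟩ := hr i.succ P
            refine ⟨s, hs1, hs2.trans ?_, hs3⟩
            rw [← hℓ]
            apply mul_le_mul_of_nonneg_right _ (by positivity)
            exact pow_le_pow_right₀ hℓ1 (by omega)
          · rw [hG]
            refine (filter_subset _ _).trans ?_
            rw [hV]
            exact htailsub m0
          · intro m' hm'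
            rw [hG] at hm'
            obtain ⟨-, -, b', hb1, hb2⟩ := mem_filter.1 hm'
            rw [hnear] at hb1
            rw [hℓ] at hb1
            exact ⟨b', hb1, hb2⟩
        · have : G u = ∅ := by
            rw [hG, filter_eq_empty_iff]
            intro m' _ hcon
            exact hu hcon.1
          rw [this]
          simp only [card_empty, Nat.cast_zero]
          positivity
      have hcov : V ⊆ (Wn ×ˢ range (Nat.log 2 N + 1)).biUnion (fun q => G (GG T N q.1 (2 ^ q.2) (2 * ε))) := by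
        intro m' hm'
        have hm'V := hm'
        rw [hV] at hm'
        obtain ⟨m, hm, rfl⟩ := mem_image.1 hm'
        obtain ⟨hmS, hmm⟩ := mem_filter.1 hm
        obtain ⟨b, hb1, hb2⟩ := hb m hmS
        rw [← hℓ] at hb1
        by_contra hcon
        apply hb2
        intro y hy
        rw [← hℓ] at hy
        have hnr : near (Fin.tail m) (Fin.tail b) := by
          rw [hnear]
          exact fun i => hb1 i.succ
        have hyone : (1 : ℝ) ≤ y 0 := (one_le_pow₀ hℓ1).trans (hy 0).1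
        have hy0 : 1 ≤ y 0 := by exact_mod_cast hyone
        obtain ⟨j, hj⟩ : ∃ j, j = Nat.log 2 (y 0) := ⟨_, rfl⟩
        have hj1 : 2 ^ j ≤ y 0 := by rw [hj]; exact Nat.pow_log_le_self 2 (by omega)
        have hj2 : y 0 < 2 ^ (j + 1) := by rw [hj]; exact Nat.lt_pow_succ_log_self (by norm_num) _
        have hjN : j ∈ range (Nat.log 2 N + 1) := by
          rw [mem_range, hj, Nat.lt_succ_iff]
          exact Nat.log_mono_right (by exact_mod_cast (hy 0).2)
        have hj2' : (y 0 : ℝ) ≤ 2 * (2 ^ j : ℕ) := by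
          have : y 0 ≤ 2 * 2 ^ j := by rw [pow_succ] at hj2; omega
          exact_mod_cast this
        have hb0W : b 0 ∈ Wn := by
          rw [hWn, mem_filter, mem_Icc]
          have h6 := hb1 0
          rw [hmm] at h6
          exact ⟨⟨h6.1, h6.2.1⟩, h6.2.2⟩
        have hF := hgoodb (b 0) hb0W
        rw [hFull] at hF
        have h7 := (hF (2 ^ j) (by
          rw [← hℓ]
          have h8 : 2 * ℓ ^ K₁ ≤ 2 * (2 ^ j : ℕ) := by
            refine le_trans ?_ hj2'
            refine le_trans ?_ (hy 0).1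
            calc 2 * ℓ ^ K₁ ≤ ℓ * ℓ ^ K₁ := mul_le_mul_of_nonneg_right (by linarith) (by positivity)
              _ = ℓ ^ (K₁ + 1) := by ring
              _ ≤ ℓ ^ (K + 1) := pow_le_pow_right₀ hℓ1 (by rw [hK]; omega)
          linarith) (hj1.trans (by exact_mod_cast (hy 0).2))).2
        obtain ⟨T', hT'⟩ : ∃ T', T' = GG T N (b 0) (2 ^ j) (2 * ε) := ⟨_, rfl⟩
        rw [← hT'] at h7
        have hT'T : T' ⊆ T := by
          rw [hT']
          unfold GG
          exact filter_subset _ _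
        have hT0 : (0 : ℝ) ≤ T.card := Nat.cast_nonneg _
        have hT'c : (T.card : ℝ) ≤ 8 * T'.card := by
          have : (1 / 8 : ℝ) * T.card ≤ (1 / 4 - 2 * ε) * T.card := mul_le_mul_of_nonneg_right (by linarith) hT0
          linarith
        have hM : Many ε K₂ N T' (Fin.tail b) := by
          by_contra hcc
          apply hcon
          rw [mem_biUnion]
          refine ⟨(b 0, j), mem_product.2 ⟨hb0W, hjN⟩, ?_⟩
          rw [← hT', hG, mem_filter]
          refine ⟨hm'V, ⟨hT'T.trans hT, ?_⟩, Fin.tail b, hnr, hcc⟩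
          rw [← hℓ]
          calc (N : ℝ) ≤ T.card * ℓ ^ C := hTN
            _ ≤ (8 * T'.card) * ℓ ^ C := by gcongr
            _ = T'.card * (8 * ℓ ^ C) := by ring
            _ ≤ T'.card * (ℓ * ℓ ^ C) := by gcongr; linarith
            _ = T'.card * ℓ ^ (C + 1) := by ring
        have h9 := hM (fun i => y i.succ) (fun i => by
          rw [← hℓ]
          exact ⟨(pow_le_pow_right₀ hℓ1 (by rw [hK]; omega)).trans (hy i.succ).1, (hy i.succ).2⟩)
        have h10 : T'.filter (fun a => ∀ i : Fin k, ε * y i.succ ≤ (pn (a + Fin.tail b i) (y i.succ) : ℝ) * Real.log N) ⊆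
            T.filter (fun a => ∀ i, ε * y i ≤ (pn (a + b i) (y i) : ℝ) * Real.log N) := by
          intro a ha
          obtain ⟨ha1, ha2⟩ := mem_filter.1 ha
          rw [mem_filter]
          refine ⟨hT'T ha1, fun i => ?_⟩
          refine Fin.cases ?_ (fun i => ha2 i) i
          rw [hT'] at ha1
          unfold GG at ha1
          have h11 := (mem_filter.1 ha1).2
          have h12 : (pn (a + b 0) (2 ^ j) : ℝ) ≤ pn (a + b 0) (y 0) := by exact_mod_cast pn_mono _ hj1
          calc ε * y 0 ≤ ε * (2 * (2 ^ j : ℕ)) := by gcongr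
            _ = (2 * ε) * (2 ^ j : ℕ) := by ring
            _ ≤ (pn (a + b 0) (2 ^ j) : ℝ) * Real.log N := h11
            _ ≤ (pn (a + b 0) (y 0) : ℝ) * Real.log N := by
                apply mul_le_mul_of_nonneg_right h12
                rw [← hℓ]
                exact hℓ0.le
        have h13 := card_le_card h10
        have h14 : ((T'.filter (fun a => ∀ i : Fin k, ε * y i.succ ≤
            (pn (a + Fin.tail b i) (y i.succ) : ℝ) * Real.log N)).card : ℝ) ≤
            ((T.filter (fun a => ∀ i, ε * y i ≤ (pn (a + b i) (y i) : ℝ) * Real.log N)).card : ℝ) := by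
          exact_mod_cast h13
        calc (1 / 4 - 2 * ε) ^ (k + 1) * (T.card : ℝ) = (1 / 4 - 2 * ε) ^ k * ((1 / 4 - 2 * ε) * T.card) := by ring
          _ ≤ (1 / 4 - 2 * ε) ^ k * T'.card := mul_le_mul_of_nonneg_left h7 (pow_nonneg (by linarith) k)
          _ ≤ _ := h9
          _ ≤ _ := h14
      have hWc : (Wn.card : ℝ) ≤ 2 * ℓ ^ A + 1 := by
        rw [hWn]
        exact card_window _ _ _ (by positivity)
      have hJc : ((Nat.log 2 N + 1 : ℕ) : ℝ) ≤ 3 * ℓ := by
        have h3 : (Nat.log 2 N : ℝ) ≤ Real.logb 2 N := by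
          have := Real.natLog_le_logb N 2
          exact_mod_cast this
        have h4 : Real.logb 2 N ≤ 2 * ℓ := by
          rw [Real.logb, ← hℓ, div_le_iff₀ (Real.log_pos (by norm_num))]
          have := Real.log_two_gt_d9
          nlinarith
        push_cast
        linarith
      have hVc : (V.card : ℝ) ≤ (Wn.card * (Nat.log 2 N + 1 : ℕ)) * (P0 / ℓ ^ (U + A + 4)) := by
        have h3 : (V.card : ℝ) ≤ ∑ q ∈ Wn ×ˢ range (Nat.log 2 N + 1), ((G (GG T N q.1 (2 ^ q.2) (2 * ε))).card : ℝ) := by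
          have h4 := (card_le_card hcov).trans card_biUnion_le
          exact_mod_cast h4
        refine h3.trans ?_
        calc ∑ q ∈ Wn ×ˢ range (Nat.log 2 N + 1), ((G (GG T N q.1 (2 ^ q.2) (2 * ε))).card : ℝ)
            ≤ ∑ _q ∈ Wn ×ˢ range (Nat.log 2 N + 1), P0 / ℓ ^ (U + A + 4) := sum_le_sum fun q _ => hGc _
          _ = (Wn.card * (Nat.log 2 N + 1 : ℕ)) * (P0 / ℓ ^ (U + A + 4)) := by
              rw [sum_const, nsmul_eq_mul, card_product, card_range, Nat.cast_mul]
      rw [← htail m0, ← hV]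
      refine hVc.trans ?_
      have hA1 : 1 ≤ ℓ ^ A := one_le_pow₀ hℓ1
      have h3 : (Wn.card : ℝ) * (Nat.log 2 N + 1 : ℕ) ≤ ℓ ^ (A + 3) := by
        calc (Wn.card : ℝ) * (Nat.log 2 N + 1 : ℕ) ≤ (2 * ℓ ^ A + 1) * (3 * ℓ) := by gcongr
          _ ≤ (3 * ℓ ^ A) * (3 * ℓ) := by gcongr; linarith
          _ = 9 * (ℓ ^ A * ℓ) := by ring
          _ ≤ ℓ ^ 2 * (ℓ ^ A * ℓ) := by
              apply mul_le_mul_of_nonneg_right _ (by positivity)
              nlinarith
          _ = ℓ ^ (A + 3) := by ring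
      calc (Wn.card * (Nat.log 2 N + 1 : ℕ)) * (P0 / ℓ ^ (U + A + 4)) ≤ ℓ ^ (A + 3) * (P0 / ℓ ^ (U + A + 4)) := by gcongr
        _ = P0 / ℓ ^ (U + 1) := by
            rw [show U + A + 4 = (A + 3) + (U + 1) by ring, pow_add ℓ (A + 3) (U + 1)]
            field_simp
    -- the total
    have htot : (S.card : ℝ) = ∑ m0 ∈ Icc 1 (x 0), ((S.filter (fun m => m 0 = m0)).card : ℝ) := by
      have h3 := card_eq_sum_card_fiberwise (f := fun m : Fin (k + 1) → ℕ => m 0) (s := S) (t := Icc 1 (x 0))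
        (fun m hm => Fintype.mem_piFinset.1 (hS hm) 0)
      exact_mod_cast h3
    rw [htot, Fin.prod_univ_succ, ← hP0]
    calc ∑ m0 ∈ Icc 1 (x 0), ((S.filter (fun m => m 0 = m0)).card : ℝ)
        ≤ ∑ m0 ∈ Icc 1 (x 0), ((if m0 ∈ Bad then P0 else 0) + P0 / ℓ ^ (U + 1)) := by
          apply sum_le_sum
          intro m0 hm0
          by_cases hB : m0 ∈ Bad
          · rw [if_pos hB]
            have := hfibBad m0
            have : 0 ≤ P0 / ℓ ^ (U + 1) := by positivity
            linarith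
          · rw [if_neg hB, zero_add]
            exact hfib m0 hm0 hB
      _ = Bad.card * P0 + x 0 * (P0 / ℓ ^ (U + 1)) := by
          have hBf : (Icc 1 (x 0)).filter (fun m0 => m0 ∈ Bad) = Bad := by
            ext m
            rw [mem_filter]
            refine ⟨fun h => h.2, fun h => ⟨?_, h⟩⟩
            rw [hBad] at h
            exact (mem_filter.1 h).1
          rw [sum_add_distrib, sum_const, nsmul_eq_mul, Nat.card_Icc, Nat.add_sub_cancel, ← sum_filter, hBf, sum_const,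
            nsmul_eq_mul]
      _ ≤ (x 0 / ℓ ^ (U + 1)) * P0 + x 0 * (P0 / ℓ ^ (U + 1)) := by gcongr
      _ = (2 * (x 0 * P0)) / ℓ ^ (U + 1) := by ring
      _ ≤ (ℓ * (x 0 * P0)) / ℓ ^ (U + 1) := by gcongr; linarith
      _ = x 0 * P0 / ℓ ^ U := by
          rw [pow_succ]
          field_simp

end Pool.Agent.H82.UC
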