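import Pool.Agent.H82.UC.Many

set_option autoImplicit false

namespace Pool.Agent.H82.UC
open Finset Filter
open Pool.Agent.W301.SS (ev_L pn GG cs)
open Pool.Agent.Q56.TF (Near)

/-- lower bound for all lengths -/
def Full1 (ε : ℝ) (K N : ℕ) (T : Finset ℕ) (b : ℕ) : Prop :=
  ∀ y : ℕ, Real.log N ^ K ≤ y → y ≤ N →
    (1 / 4 - ε) * (T.card : ℝ) ≤ ((T.filter (fun a => ε * y ≤ (pn (a + b) y : ℝ) * Real.log N)).card : ℝ)

open Classical in
/-- the exceptional members of a family for the set `T` -/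
noncomputable def Bd (ε : ℝ) (K A N x : ℕ) (r : ℕ → ℝ) (T : Finset ℕ) : Finset ℕ :=
  (Icc 1 x).filter (fun m => ∃ b : ℕ, 1 ≤ b ∧ b ≤ N ∧ |(b : ℝ) - r m| ≤ Real.log N ^ A ∧ ¬ Full1 ε K N T b)

theorem one (p A B C U : ℕ) (ε : ℝ) (hε : 0 < ε) (hε1 : ε ≤ 1 / 4) : ∃ K : ℕ, ∀ᶠ N : ℕ in atTop,
    ∀ (x : ℕ) (r : ℕ → ℝ), Near A p B C N x r → ∀ T : Finset ℕ, T ⊆ Icc 1 N → (N : ℝ) ≤ T.card * Real.log N ^ C →
    ((Bd ε K A N x r T).card : ℝ) ≤ x / Real.log N ^ U := by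
  classical
  obtain ⟨K₁, hK₁⟩ := Pool.Agent.TH646.TT.cnt_full p B C U ε hε hε1
  refine ⟨K₁, ?_⟩
  filter_upwards [hK₁] with N h1 x r hr T hT hTN
  obtain ⟨Full, hFull⟩ : ∃ Full : ℕ → Prop, Full = fun b => ∀ y : ℕ, Real.log N ^ K₁ ≤ y → y ≤ N →
      |cs T b y * Real.log N - T.card * y| ≤ ε * (T.card * y) ∧
      (1 / 4 - ε) * T.card ≤ (GG T N b y ε).card := ⟨_, rfl⟩
  refine hr.count (fun b : ℤ => 0 < b ∧ b ≤ N ∧ ¬ Full b.toNat) _ ?_ _ (by unfold Bd; exact filter_subset _ _) ?_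
  · intro s hs hE T' hT' hTP
    refine h1 x s hs hE T hT hTN T' hT' ?_
    intro m hm
    have h3 := hTP m hm
    rw [hFull] at h3
    exact h3
  · intro m hm
    unfold Bd at hm
    obtain ⟨_, b, hb1, hb2, hb3, hb4⟩ := mem_filter.1 hm
    refine ⟨(b : ℤ), by exact_mod_cast hb3, by exact_mod_cast hb1, by exact_mod_cast hb2, ?_⟩
    rw [Int.toNat_natCast]
    intro hcon
    apply hb4
    intro y hy1 hy2
    rw [hFull] at hcon
    have h5 := (hcon y hy1 hy2).2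
    unfold GG at h5
    exact h5

lemma levels (h w : ℝ) (hh : 0 < h) (hw : 0 ≤ w) (J : ℕ) (hJ : w ≤ J * h) :
    w - h ≤ h * (((Icc 1 J).filter (fun j : ℕ => (j : ℝ) * h ≤ w)).card : ℝ) ∧
    h * (((Icc 1 J).filter (fun j : ℕ => (j : ℝ) * h ≤ w)).card : ℝ) ≤ w := by
  have h0 : 0 ≤ w / h := by positivity
  have h1 : (Icc 1 J).filter (fun j : ℕ => (j : ℝ) * h ≤ w) = Icc 1 ⌊w / h⌋₊ := by
    ext j
    rw [mem_filter, mem_Icc, mem_Icc, Nat.le_floor_iff h0, le_div_iff₀ hh]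
    refine ⟨fun h => ⟨h.1.1, h.2⟩, fun h2 => ⟨⟨h2.1, ?_⟩, h2.2⟩⟩
    have h3 : (j : ℝ) * h ≤ J * h := h2.2.trans hJ
    have h4 : (j : ℝ) ≤ J := le_of_mul_le_mul_right h3 hh
    exact_mod_cast h4
  rw [h1, Nat.card_Icc, Nat.add_sub_cancel]
  have h2 := Nat.floor_le h0
  have h3 := Nat.lt_floor_add_one (w / h)
  have h4 : w = h * (w / h) := by field_simp
  constructor
  · nlinarith
  · nlinarith

/-- a set `G` which contains a large share of all large level sets contains a large share of the weight -/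
lemma layer (X J : ℕ) (h M c D : ℝ) (hh : 0 < h) (hc : 0 ≤ c) (w : ℕ → ℝ) (hw : ∀ s, 0 ≤ w s) (hwJ : ∀ s, w s ≤ J * h)
    (G : Finset ℕ) (hD : 0 ≤ D)
    (hg : ∀ j ∈ Icc 1 J, D ≤ (((Icc 1 X).filter (fun s => (j : ℝ) * h ≤ w s)).card : ℝ) →
      c * (((Icc 1 X).filter (fun s => (j : ℝ) * h ≤ w s)).card : ℝ) ≤
        ((G.filter (fun s => (j : ℝ) * h ≤ w s)).card : ℝ)) (hM : M = ∑ s ∈ Icc 1 X, w s) :
    c * (M - h * X - h * J * D) ≤ ∑ s ∈ G, w s := by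
  have h1 : ∀ G : Finset ℕ, ∑ s ∈ G, h * (((Icc 1 J).filter (fun j : ℕ => (j : ℝ) * h ≤ w s)).card : ℝ) =
      h * ∑ j ∈ Icc 1 J, ((G.filter (fun s => (j : ℝ) * h ≤ w s)).card : ℝ) := by
    intro G
    rw [← mul_sum]
    congr 1
    simp only [card_filter, Nat.cast_sum]
    rw [sum_comm]
  have h2 : ∑ s ∈ Icc 1 X, w s - h * X ≤ h * ∑ j ∈ Icc 1 J, (((Icc 1 X).filter (fun s => (j : ℝ) * h ≤ w s)).card : ℝ) := by
    rw [← h1]
    have h3 : ∑ s ∈ Icc 1 X, w s - h * X = ∑ s ∈ Icc 1 X, (w s - h) := by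
      rw [sum_sub_distrib, sum_const, nsmul_eq_mul, Nat.card_Icc, Nat.add_sub_cancel]
      ring
    rw [h3]
    exact sum_le_sum fun s _ => (levels h (w s) hh (hw s) J (hwJ s)).1
  have h4 : h * ∑ j ∈ Icc 1 J, ((G.filter (fun s => (j : ℝ) * h ≤ w s)).card : ℝ) ≤ ∑ s ∈ G, w s := by
    rw [← h1]
    exact sum_le_sum fun s _ => (levels h (w s) hh (hw s) J (hwJ s)).2
  refine le_trans ?_ h4
  have h5 : ∑ j ∈ Icc 1 J, c * ((((Icc 1 X).filter (fun s => (j : ℝ) * h ≤ w s)).card : ℝ) - D) ≤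
      ∑ j ∈ Icc 1 J, ((G.filter (fun s => (j : ℝ) * h ≤ w s)).card : ℝ) := by
    apply sum_le_sum
    intro j hj
    by_cases hDj : D ≤ (((Icc 1 X).filter (fun s => (j : ℝ) * h ≤ w s)).card : ℝ)
    · refine le_trans ?_ (hg j hj hDj)
      apply mul_le_mul_of_nonneg_left _ hc
      linarith
    · push Not at hDj
      refine le_trans ?_ (Nat.cast_nonneg _)
      nlinarith
  rw [← mul_sum, sum_sub_distrib, sum_const, nsmul_eq_mul, Nat.card_Icc, Nat.add_sub_cancel] at h5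
  rw [hM]
  calc c * (∑ s ∈ Icc 1 X, w s - h * X - h * J * D)
      ≤ c * (h * ∑ j ∈ Icc 1 J, (((Icc 1 X).filter (fun s => (j : ℝ) * h ≤ w s)).card : ℝ) - h * J * D) := by
        apply mul_le_mul_of_nonneg_left _ hc
        linarith
    _ = h * (c * (∑ j ∈ Icc 1 J, (((Icc 1 X).filter (fun s => (j : ℝ) * h ≤ w s)).card : ℝ) - J * D)) := by ring
    _ ≤ _ := mul_le_mul_of_nonneg_left h5 hh.le

lemma near_monoC' {A p B C C' N x : ℕ} {r : ℕ → ℝ} (hN : 1 ≤ Real.log N) (hC : C ≤ C')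
    (h : Near A p B C N x r) : Near A p B C' N x r := by
  intro P
  obtain ⟨s, h1, h2, h3⟩ := h P
  refine ⟨s, h1, h2.trans ?_, h3⟩
  apply mul_le_mul_of_nonneg_right _ (by positivity)
  exact pow_le_pow_right₀ hN hC

lemma base_lin : Pool.Agent.Q56.TF.Base (fun m : ℕ => (m : ℝ)) 1 := by
  have h := Pool.Agent.Q56.TF.base_poly (Polynomial.X : Polynomial ℤ) (by simp)
  simpa using h

lemma base_quad : Pool.Agent.Q56.TF.Base (fun m : ℕ => (m : ℝ) ^ 2 + m + 1) 2 := by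
  have hd : (Polynomial.X ^ 2 + Polynomial.X + 1 : Polynomial ℤ).natDegree = 2 := by compute_degree!
  have h := Pool.Agent.Q56.TF.base_poly (Polynomial.X ^ 2 + Polynomial.X + 1 : Polynomial ℤ) (by rw [hd]; norm_num)
  rw [hd] at h
  simpa using h

open Classical in
/-- the fibre above `s` -/
noncomputable def fib (X : ℕ) (W : Finset (ℕ × ℕ)) (s : ℕ) : Finset ℕ := (Icc 1 (X ^ 2)).filter (fun t => (s, t) ∈ W)

/-- a large share of the pairs of `W` is good for `a`, `b` -/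
def PairGood (ε : ℝ) (K X : ℕ) (W : Finset (ℕ × ℕ)) (a b : ℕ) : Prop :=
  ∀ y z : ℕ, Real.log X ^ K ≤ y → y ≤ X → Real.log X ^ K ≤ z → z ≤ X ^ 2 →
    (1 / 16 - 2 * ε) * (W.card : ℝ) ≤
      ((W.filter (fun q => ε * y ≤ (pn (q.1 + a) y : ℝ) * Real.log X ∧
        ε * z ≤ (pn (q.2 + b) z : ℝ) * (3 * Real.log X))).card : ℝ)

lemma card_fib (X : ℕ) (W : Finset (ℕ × ℕ)) (hW : W ⊆ Icc 1 X ×ˢ Icc 1 (X ^ 2)) (P : ℕ × ℕ → Prop)
    [DecidablePred P] : (W.filter P).card = ∑ s ∈ Icc 1 X, ((fib X W s).filter (fun t => P (s, t))).card := by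
  classical
  rw [card_eq_sum_card_fiberwise (f := Prod.fst) (t := Icc 1 X)
    (fun q hq => (mem_product.1 (hW (mem_filter.1 hq).1)).1)]
  apply sum_congr rfl
  intro s _
  apply card_bij (fun q _ => q.2)
  · rintro ⟨q1, q2⟩ hq
    simp only [mem_filter] at hq
    obtain ⟨⟨h1, h2⟩, rfl⟩ := hq
    simp only [fib, mem_filter]
    exact ⟨⟨(mem_product.1 (hW h1)).2, h1⟩, h2⟩
  · rintro ⟨q1, q2⟩ hq ⟨q1', q2'⟩ hq' he
    simp only [mem_filter] at hq hq'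
    obtain ⟨_, rfl⟩ := hq
    obtain ⟨_, rfl⟩ := hq'
    simp only at he
    rw [he]
  · intro t ht
    simp only [fib, mem_filter] at ht
    exact ⟨(s, t), by simp only [mem_filter]; exact ⟨⟨ht.1.2, ht.2⟩, trivial⟩, rfl⟩

theorem pairs (A C U : ℕ) (ε : ℝ) (hε : 0 < ε) (hε1 : ε ≤ 1 / 16) : ∃ K : ℕ, ∀ᶠ X : ℕ in atTop,
    ∀ W : Finset (ℕ × ℕ), W ⊆ Icc 1 X ×ˢ Icc 1 (X ^ 2) → (X : ℝ) ^ 3 ≤ W.card * Real.log X ^ C →
    ∀ S : Finset ℕ, S ⊆ Icc 1 X →
    (∀ m ∈ S, ∃ a b : ℕ, 1 ≤ a ∧ a ≤ X ∧ |(a : ℝ) - m| ≤ Real.log X ^ A ∧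
      1 ≤ b ∧ b ≤ 3 * X ^ 2 ∧ |(b : ℝ) - ((m : ℝ) ^ 2 + m + 1)| ≤ Real.log X ^ A ∧ ¬ PairGood ε K X W a b) →
    (S.card : ℝ) ≤ X / Real.log X ^ U := by
  classical
  obtain ⟨p₁, B₁, C₁, N₁, hn1⟩ := Pool.Agent.Q56.TF.near_base base_lin le_rfl A 1 0
  obtain ⟨p₂, B₂, C₂, N₂, hn2⟩ := Pool.Agent.Q56.TF.near_base base_quad (by norm_num) A 1 1
  obtain ⟨K₁, hK₁⟩ := one p₁ A B₁ (C₁ + (C + 1)) (U + C + 3) ε hε (by linarith)
  obtain ⟨K₂, hK₂⟩ := one p₂ A B₂ (C₂ + (C + 1)) (U + C + 2) ε hε (by linarith)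
  have htend : Tendsto (fun X : ℕ => 3 * X ^ 2) atTop atTop :=
    tendsto_atTop_mono (fun X => (Nat.le_self_pow (n := 2) (by norm_num) X).trans
      (Nat.le_mul_of_pos_left _ (by norm_num))) tendsto_id
  refine ⟨K₁ + K₂ + 1, ?_⟩
  filter_upwards [hK₁, htend.eventually hK₂, ev_L (3 / ε), ev_L (3 ^ K₂), ev_L 16, eventually_ge_atTop (N₁ + 3),
    htend.eventually (eventually_ge_atTop N₂)] with X h1 h2 hl1 hl2 hl3 hX1 hX2 W hW hWX S hS hb
  obtain ⟨ℓ, hℓ⟩ : ∃ ℓ, ℓ = Real.log X := ⟨_, rfl⟩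
  obtain ⟨ℓ₂, hℓ₂⟩ : ∃ ℓ₂, ℓ₂ = Real.log ((3 * X ^ 2 : ℕ) : ℝ) := ⟨_, rfl⟩
  have hXr : (3 : ℝ) ≤ X := by exact_mod_cast (by omega : 3 ≤ X)
  have hX0 : (0 : ℝ) < X := by linarith
  have hNr : ((3 * X ^ 2 : ℕ) : ℝ) = 3 * (X : ℝ) ^ 2 := by push_cast; ring
  have hl12 : ℓ ≤ ℓ₂ ∧ ℓ₂ ≤ 3 * ℓ := by
    rw [hℓ₂, hNr, Real.log_mul (by norm_num) (by positivity), Real.log_pow, hℓ]
    have h3 : 0 ≤ Real.log 3 := Real.log_nonneg (by norm_num)
    have h4 : Real.log 3 ≤ Real.log X := Real.log_le_log (by norm_num) hXr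
    have h5 : 0 ≤ Real.log X := h3.trans h4
    push_cast
    constructor <;> linarith
  rw [← hℓ] at hl1 hl2 hl3 hWX
  rw [← hℓ]
  have hℓ1 : 1 ≤ ℓ := by linarith
  have hℓ0 : 0 < ℓ := by linarith
  have hℓ20 : 1 ≤ ℓ₂ := hℓ1.trans hl12.1
  have hεℓ : 3 ≤ ε * ℓ := by
    rw [div_le_iff₀ hε] at hl1
    linarith
  -- the weight
  obtain ⟨w, hw⟩ : ∃ w : ℕ → ℝ, w = fun s => ((fib X W s).card : ℝ) := ⟨_, rfl⟩
  have hw0 : ∀ s, 0 ≤ w s := by intro s; rw [hw]; exact Nat.cast_nonneg _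
  have hwX : ∀ s, w s ≤ (X : ℝ) ^ 2 := by
    intro s
    simp only [hw]
    have h3 : (fib X W s).card ≤ X ^ 2 := by
      have h4 : (fib X W s).card ≤ (Icc 1 (X ^ 2)).card := by
        unfold fib
        exact card_le_card (filter_subset _ _)
      rwa [Nat.card_Icc, Nat.add_sub_cancel] at h4
    exact_mod_cast h3
  obtain ⟨M, hM⟩ : ∃ M : ℝ, M = W.card := ⟨_, rfl⟩
  rw [← hM] at hWX
  have hMw : M = ∑ s ∈ Icc 1 X, w s := by
    have h3 := card_fib X W hW (fun _ => True)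
    simp only [filter_true] at h3
    rw [hM, h3, hw]
    push_cast
    rfl
  have hM0 : 0 < M := by
    by_contra hcon
    push Not at hcon
    have h3 : M * ℓ ^ C ≤ 0 := mul_nonpos_of_nonpos_of_nonneg hcon (by positivity)
    have h4 : (0 : ℝ) < (X : ℝ) ^ 3 := by positivity
    linarith
  obtain ⟨h, hh⟩ : ∃ h : ℝ, h = (X : ℝ) ^ 2 / ℓ ^ (C + 1) := ⟨_, rfl⟩
  obtain ⟨J, hJ⟩ : ∃ J : ℕ, J = ⌈ℓ ^ (C + 1)⌉₊ := ⟨_, rfl⟩
  have hh0 : 0 < h := by rw [hh]; positivity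
  have hJ1 : ℓ ^ (C + 1) ≤ J := by rw [hJ]; exact Nat.le_ceil _
  have hJ2 : (J : ℝ) ≤ 2 * ℓ ^ (C + 1) := by
    have h3 := Nat.ceil_lt_add_one (show 0 ≤ ℓ ^ (C + 1) by positivity)
    rw [← hJ] at h3
    have h4 : 1 ≤ ℓ ^ (C + 1) := one_le_pow₀ hℓ1
    linarith
  have hwJ : ∀ s, w s ≤ J * h := by
    intro s
    refine (hwX s).trans ?_
    calc (X : ℝ) ^ 2 = ℓ ^ (C + 1) * h := by rw [hh]; field_simp
      _ ≤ J * h := mul_le_mul_of_nonneg_right hJ1 hh0.le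
  -- the exceptional sets
  obtain ⟨T1, hT1⟩ : ∃ T1 : ℕ → Finset ℕ, T1 = fun j : ℕ => (Icc 1 X).filter (fun s => (j : ℝ) * h ≤ w s) := ⟨_, rfl⟩
  obtain ⟨D, hD⟩ : ∃ D : ℝ, D = X / ℓ ^ (C + 1) := ⟨_, rfl⟩
  obtain ⟨E1, hE1⟩ : ∃ E1 : Finset ℕ, E1 = ((Icc 1 J).filter (fun j => D ≤ ((T1 j).card : ℝ))).biUnion
    (fun j => Bd ε K₁ A X X (fun m => 0 + (m : ℝ)) (T1 j)) := ⟨_, rfl⟩
  have hE1c : (E1.card : ℝ) ≤ X / ℓ ^ (U + 1) := by
    have h3 : (E1.card : ℝ) ≤ ∑ j ∈ (Icc 1 J).filter (fun j => D ≤ ((T1 j).card : ℝ)),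
        ((Bd ε K₁ A X X (fun m => 0 + (m : ℝ)) (T1 j)).card : ℝ) := by
      rw [hE1]
      exact_mod_cast card_biUnion_le
    have hnear : Near A p₁ B₁ (C₁ + (C + 1)) X X (fun m => 0 + (m : ℝ)) := by
      refine near_monoC' (by rw [← hℓ]; exact hℓ1) (Nat.le_add_right _ _) (hn1 X (by omega) X ?_ ?_ 0 ?_)
      · rw [Real.rpow_one]
        push_cast
        linarith
      · rw [Real.rpow_one, pow_zero, one_mul]
      · rw [abs_zero]
        positivity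
    refine h3.trans ?_
    calc ∑ j ∈ (Icc 1 J).filter (fun j => D ≤ ((T1 j).card : ℝ)),
          ((Bd ε K₁ A X X (fun m => 0 + (m : ℝ)) (T1 j)).card : ℝ)
        ≤ ∑ j ∈ (Icc 1 J).filter (fun j => D ≤ ((T1 j).card : ℝ)), X / ℓ ^ (U + C + 3) := by
          apply sum_le_sum
          intro j hj
          rw [hℓ]
          refine h1 X _ hnear (T1 j) (by rw [hT1]; exact filter_subset _ _) ?_
          rw [← hℓ]
          have h4 := (mem_filter.1 hj).2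
          rw [hD, div_le_iff₀ (by positivity)] at h4
          refine h4.trans ?_
          apply mul_le_mul_of_nonneg_left _ (Nat.cast_nonneg _)
          exact pow_le_pow_right₀ hℓ1 (by omega)
      _ ≤ ∑ j ∈ Icc 1 J, X / ℓ ^ (U + C + 3) :=
          sum_le_sum_of_subset_of_nonneg (filter_subset _ _) fun _ _ _ => by positivity
      _ = J * (X / ℓ ^ (U + C + 3)) := by rw [sum_const, nsmul_eq_mul, Nat.card_Icc, Nat.add_sub_cancel]
      _ ≤ (2 * ℓ ^ (C + 1)) * (X / ℓ ^ (U + C + 3)) := by gcongr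
      _ ≤ (ℓ * ℓ ^ (C + 1)) * (X / ℓ ^ (U + C + 3)) := by gcongr; linarith
      _ = X / ℓ ^ (U + 1) := by
          rw [show U + C + 3 = (U + 1) + (1 + (C + 1)) by ring, pow_add ℓ (U + 1), pow_add ℓ 1]
          field_simp
  obtain ⟨B, hB⟩ : ∃ B : ℕ → Finset ℕ, B = fun s =>
    if ((3 * X ^ 2 : ℕ) : ℝ) ≤ ((fib X W s).card : ℝ) * ℓ₂ ^ (C₂ + (C + 1)) then
      Bd ε K₂ A (3 * X ^ 2) X (fun m => 0 + ((m : ℝ) ^ 2 + m + 1)) (fib X W s) else ∅ := ⟨_, rfl⟩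
  have hBc : ∀ s, ((B s).card : ℝ) ≤ X / ℓ ^ (U + C + 2) := by
    intro s
    rw [hB]
    simp only
    split_ifs with hs
    · have hnear : Near A p₂ B₂ (C₂ + (C + 1)) (3 * X ^ 2) X (fun m => 0 + ((m : ℝ) ^ 2 + m + 1)) := by
        refine near_monoC' (by rw [← hℓ₂]; exact hℓ20) (Nat.le_add_right _ _) (hn2 (3 * X ^ 2) hX2 X ?_ ?_ 0 ?_)
        · rw [Real.rpow_two, hNr]
          push_cast
          nlinarith
        · rw [Real.rpow_two, ← hℓ₂, hNr, pow_one]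
          apply mul_le_mul_of_nonneg_right _ (by positivity)
          linarith [hl12.1]
        · rw [abs_zero]
          positivity
      have h4 := h2 X _ hnear (fib X W s) (by
        unfold fib
        refine (filter_subset _ _).trans (Icc_subset_Icc_right (by nlinarith [Nat.zero_le (X ^ 2)]))) (by
        rw [← hℓ₂]; exact hs)
      rw [← hℓ₂] at h4
      refine h4.trans ?_
      apply div_le_div_of_nonneg_left hX0.le (by positivity)
      exact pow_le_pow_left₀ hℓ0.le hl12.1 _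
    · simp only [card_empty, Nat.cast_zero]
      positivity
  obtain ⟨V, hV⟩ : ∃ V : ℕ → ℝ, V = fun m => ∑ s ∈ Icc 1 X, if m ∈ B s then w s else 0 := ⟨_, rfl⟩
  have hV0 : ∀ m, 0 ≤ V m := by
    intro m
    rw [hV]
    refine sum_nonneg fun s _ => ?_
    split_ifs
    · exact hw0 s
    · exact le_rfl
  obtain ⟨E2, hE2⟩ : ∃ E2 : Finset ℕ, E2 = (Icc 1 X).filter (fun m => ε * M ≤ V m) := ⟨_, rfl⟩
  have hE2c : (E2.card : ℝ) ≤ X / ℓ ^ (U + 1) := by
    have h3 : E2.card * (ε * M) ≤ ∑ m ∈ Icc 1 X, V m := by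
      calc E2.card * (ε * M) = ∑ _m ∈ E2, ε * M := by rw [sum_const, nsmul_eq_mul]
        _ ≤ ∑ m ∈ E2, V m := sum_le_sum fun m hm => by rw [hE2] at hm; exact (mem_filter.1 hm).2
        _ ≤ ∑ m ∈ Icc 1 X, V m := sum_le_sum_of_subset_of_nonneg (by rw [hE2]; exact filter_subset _ _)
            fun m _ _ => hV0 m
    have h4 : ∑ m ∈ Icc 1 X, V m ≤ X * ((X : ℝ) ^ 2 * (X / ℓ ^ (U + C + 2))) := by
      rw [hV]
      simp only
      rw [sum_comm]
      calc ∑ s ∈ Icc 1 X, ∑ m ∈ Icc 1 X, (if m ∈ B s then w s else 0)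
          ≤ ∑ s ∈ Icc 1 X, (X : ℝ) ^ 2 * (X / ℓ ^ (U + C + 2)) := by
            apply sum_le_sum
            intro s _
            rw [← sum_filter, sum_const, nsmul_eq_mul]
            have h5 : (((Icc 1 X).filter (fun m => m ∈ B s)).card : ℝ) ≤ (B s).card := by
              have : (Icc 1 X).filter (fun m => m ∈ B s) ⊆ B s := fun m hm => (mem_filter.1 hm).2
              exact_mod_cast card_le_card this
            calc (((Icc 1 X).filter (fun m => m ∈ B s)).card : ℝ) * w s ≤ (X / ℓ ^ (U + C + 2)) * (X : ℝ) ^ 2 :=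
                  mul_le_mul (h5.trans (hBc s)) (hwX s) (hw0 s) (by positivity)
              _ = _ := by ring
        _ = _ := by rw [sum_const, nsmul_eq_mul, Nat.card_Icc, Nat.add_sub_cancel]
    have h5 : (E2.card : ℝ) * (ε * M) ≤ (M * ℓ ^ C) * (X / ℓ ^ (U + C + 2)) := by
      refine (h3.trans h4).trans ?_
      calc X * ((X : ℝ) ^ 2 * (X / ℓ ^ (U + C + 2))) = (X : ℝ) ^ 3 * (X / ℓ ^ (U + C + 2)) := by ring
        _ ≤ _ := mul_le_mul_of_nonneg_right hWX (by positivity)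
    have h6 : (E2.card : ℝ) * ε ≤ X / ℓ ^ (U + 2) := by
      have h7 : ((E2.card : ℝ) * ε) * M ≤ (X / ℓ ^ (U + 2)) * M := by
        calc ((E2.card : ℝ) * ε) * M = (E2.card : ℝ) * (ε * M) := by ring
          _ ≤ _ := h5
          _ = (X / ℓ ^ (U + 2)) * M := by
              rw [show U + C + 2 = (U + 2) + C by ring, pow_add ℓ (U + 2) C]
              field_simp
      exact le_of_mul_le_mul_right h7 hM0
    have h8 : (E2.card : ℝ) ≤ E2.card * (ε * ℓ) := by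
      have : (0 : ℝ) ≤ E2.card := Nat.cast_nonneg _
      nlinarith
    calc (E2.card : ℝ) ≤ E2.card * (ε * ℓ) := h8
      _ = ((E2.card : ℝ) * ε) * ℓ := by ring
      _ ≤ (X / ℓ ^ (U + 2)) * ℓ := mul_le_mul_of_nonneg_right h6 hℓ0.le
      _ = X / ℓ ^ (U + 1) := by
          rw [pow_succ ℓ (U + 1)]
          field_simp
  -- the members outside
  have hsub : S ⊆ E1 ∪ E2 := by
    intro m hm
    by_contra hcon
    rw [mem_union, not_or] at hcon
    obtain ⟨a, b, ha1, ha2, ha3, hb1, hb2, hb3, hbad⟩ := hb m hm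
    have hmX := hS hm
    apply hbad
    intro y z hy1 hy2 hz1 hz2
    rw [← hℓ] at hy1 hz1 ha3 hb3 ⊢
    obtain ⟨G, hG⟩ : ∃ G : Finset ℕ, G = (Icc 1 X).filter (fun s => ε * y ≤ (pn (s + a) y : ℝ) * ℓ) := ⟨_, rfl⟩
    have hGw : (1 / 4 - ε) * (M - h * X - h * J * D) ≤ ∑ s ∈ G, w s := by
      refine layer X J h M (1 / 4 - ε) D hh0 (by linarith) w hw0 hwJ G (by rw [hD]; positivity) ?_ hMw
      intro j hj hDj
      have h3 : Full1 ε K₁ X (T1 j) a := by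
        by_contra hc2
        apply hcon.1
        rw [hE1, mem_biUnion]
        refine ⟨j, mem_filter.2 ⟨hj, by rw [hT1]; exact hDj⟩, ?_⟩
        unfold Bd
        rw [mem_filter]
        exact ⟨hmX, a, ha1, ha2, by rw [← hℓ]; simpa only [zero_add] using ha3, hc2⟩
      have h4 := h3 y (by
        rw [← hℓ]
        exact (pow_le_pow_right₀ hℓ1 (by omega)).trans hy1) hy2
      rw [hT1] at h4
      refine h4.trans ?_
      have h5 : ((Icc 1 X).filter (fun s => (j : ℝ) * h ≤ w s)).filter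
          (fun s => ε * y ≤ (pn (s + a) y : ℝ) * Real.log X) ⊆ G.filter (fun s => (j : ℝ) * h ≤ w s) := by
        intro s hs
        rw [mem_filter, mem_filter] at hs
        rw [hG, mem_filter, mem_filter]
        rw [← hℓ] at hs
        exact ⟨⟨hs.1.1, hs.2⟩, hs.1.2⟩
      exact_mod_cast card_le_card h5
    have hX3 : (X : ℝ) ^ 3 / ℓ ^ (C + 1) ≤ M / ℓ := by
      rw [div_le_div_iff₀ (by positivity) hℓ0, pow_succ ℓ C]
      calc (X : ℝ) ^ 3 * ℓ ≤ (M * ℓ ^ C) * ℓ := mul_le_mul_of_nonneg_right hWX hℓ0.le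
        _ = M * (ℓ ^ C * ℓ) := by ring
    have hGw2 : (1 / 4 - 2 * ε) * M ≤ ∑ s ∈ G, w s := by
      refine le_trans ?_ hGw
      have h3 : h * X ≤ M / ℓ := by
        refine le_trans (le_of_eq ?_) hX3
        rw [hh]
        ring
      have h4 : h * J * D ≤ 2 * (M / ℓ) := by
        have h5 : h * J * D ≤ h * (2 * ℓ ^ (C + 1)) * D := by
          have : 0 ≤ D := by rw [hD]; positivity
          gcongr
        have h6 : h * (2 * ℓ ^ (C + 1)) * D = 2 * ((X : ℝ) ^ 3 / ℓ ^ (C + 1)) := by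
          rw [hh, hD]
          field_simp
        rw [h6] at h5
        linarith
      have h7 : 3 * (M / ℓ) ≤ ε * M := by
        rw [mul_div_assoc', div_le_iff₀ hℓ0]
        nlinarith
      calc (1 / 4 - 2 * ε) * M ≤ (1 / 4 - ε) * (M - ε * M) := by nlinarith [mul_pos hε hM0, mul_pos (mul_pos hε hε) hM0]
        _ ≤ _ := by
            apply mul_le_mul_of_nonneg_left _ (by linarith)
            linarith
    -- the good s
    obtain ⟨G2, hG2⟩ : ∃ G2 : Finset ℕ, G2 = G.filter (fun s => m ∉ B s ∧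
      ((3 * X ^ 2 : ℕ) : ℝ) ≤ ((fib X W s).card : ℝ) * ℓ₂ ^ (C₂ + (C + 1))) := ⟨_, rfl⟩
    have hG2w : (1 / 4 - 4 * ε) * M ≤ ∑ s ∈ G2, w s := by
      have h3 : ∑ s ∈ G, w s ≤ ∑ s ∈ G2, w s + V m + ∑ _s ∈ Icc 1 X, 3 * (X : ℝ) ^ 2 / ℓ ^ (C + 1) := by
        have h4 : ∑ s ∈ G, w s ≤ ∑ s ∈ G, ((if (m ∉ B s ∧
            ((3 * X ^ 2 : ℕ) : ℝ) ≤ ((fib X W s).card : ℝ) * ℓ₂ ^ (C₂ + (C + 1))) then w s else 0) +
            (if m ∈ B s then w s else 0) + 3 * (X : ℝ) ^ 2 / ℓ ^ (C + 1)) := by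
          apply sum_le_sum
          intro s _
          have h0 : 0 ≤ 3 * (X : ℝ) ^ 2 / ℓ ^ (C + 1) := by positivity
          by_cases hc1 : m ∈ B s
          · rw [if_neg (fun hx => hx.1 hc1), if_pos hc1]
            linarith
          · rw [if_neg hc1]
            by_cases hc2 : ((3 * X ^ 2 : ℕ) : ℝ) ≤ ((fib X W s).card : ℝ) * ℓ₂ ^ (C₂ + (C + 1))
            · rw [if_pos ⟨hc1, hc2⟩]
              linarith
            · rw [if_neg (fun hx => hc2 hx.2), zero_add, zero_add]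
              push Not at hc2
              rw [hNr] at hc2
              rw [hw, le_div_iff₀ (by positivity)]
              refine le_trans ?_ hc2.le
              apply mul_le_mul_of_nonneg_left _ (Nat.cast_nonneg _)
              calc ℓ ^ (C + 1) ≤ ℓ₂ ^ (C + 1) := pow_le_pow_left₀ hℓ0.le hl12.1 _
                _ ≤ ℓ₂ ^ (C₂ + (C + 1)) := pow_le_pow_right₀ hℓ20 (by omega)
        refine h4.trans ?_
        rw [sum_add_distrib, sum_add_distrib, ← sum_filter, hG2]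
        have hGX : G ⊆ Icc 1 X := by rw [hG]; exact filter_subset _ _
        have h5 : ∑ s ∈ G, (if m ∈ B s then w s else 0) ≤ V m := by
          rw [hV]
          refine sum_le_sum_of_subset_of_nonneg hGX fun s _ _ => ?_
          split_ifs
          · exact hw0 s
          · exact le_rfl
        have h6 : ∑ _s ∈ G, 3 * (X : ℝ) ^ 2 / ℓ ^ (C + 1) ≤ ∑ _s ∈ Icc 1 X, 3 * (X : ℝ) ^ 2 / ℓ ^ (C + 1) :=
          sum_le_sum_of_subset_of_nonneg hGX fun s _ _ => by positivity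
        linarith
      have h7 : V m ≤ ε * M := by
        by_contra hc3
        push Not at hc3
        apply hcon.2
        rw [hE2, mem_filter]
        exact ⟨hmX, hc3.le⟩
      have h8 : ∑ _s ∈ Icc 1 X, 3 * (X : ℝ) ^ 2 / ℓ ^ (C + 1) ≤ ε * M := by
        rw [sum_const, nsmul_eq_mul, Nat.card_Icc, Nat.add_sub_cancel]
        calc (X : ℝ) * (3 * (X : ℝ) ^ 2 / ℓ ^ (C + 1)) = 3 * ((X : ℝ) ^ 3 / ℓ ^ (C + 1)) := by ring
          _ ≤ 3 * (M / ℓ) := by linarith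
          _ ≤ ε * M := by
              rw [mul_div_assoc', div_le_iff₀ hℓ0]
              nlinarith
      linarith
    have hcount := card_fib X W hW (fun q => ε * y ≤ (pn (q.1 + a) y : ℝ) * ℓ ∧
        ε * z ≤ (pn (q.2 + b) z : ℝ) * (3 * ℓ))
    have hG2X : G2 ⊆ Icc 1 X := by
      rw [hG2, hG]
      exact (filter_subset _ _).trans (filter_subset _ _)
    have hfin : ∑ s ∈ G2, (1 / 4 - ε) * w s ≤ ((W.filter (fun q => ε * y ≤ (pn (q.1 + a) y : ℝ) * ℓ ∧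
        ε * z ≤ (pn (q.2 + b) z : ℝ) * (3 * ℓ))).card : ℝ) := by
      rw [hcount]
      push_cast
      refine le_trans ?_ (sum_le_sum_of_subset_of_nonneg hG2X fun _ _ _ => Nat.cast_nonneg _)
      apply sum_le_sum
      intro s hs
      rw [hG2, mem_filter] at hs
      obtain ⟨hsG, hs2, hs3⟩ := hs
      rw [hG, mem_filter] at hsG
      have h3 : Full1 ε K₂ (3 * X ^ 2) (fib X W s) b := by
        by_contra hc2
        apply hs2
        rw [hB]
        simp only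
        rw [if_pos hs3]
        unfold Bd
        rw [mem_filter]
        refine ⟨hmX, b, hb1, hb2, ?_, hc2⟩
        rw [← hℓ₂]
        simp only [zero_add]
        exact hb3.trans (pow_le_pow_left₀ hℓ0.le hl12.1 _)
      have h4 := h3 z (by
        rw [← hℓ₂]
        calc ℓ₂ ^ K₂ ≤ (3 * ℓ) ^ K₂ := pow_le_pow_left₀ (by linarith) hl12.2 _
          _ = 3 ^ K₂ * ℓ ^ K₂ := by rw [mul_pow]
          _ ≤ ℓ * ℓ ^ K₂ := by gcongr
          _ = ℓ ^ (K₂ + 1) := by ring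
          _ ≤ ℓ ^ (K₁ + K₂ + 1) := pow_le_pow_right₀ hℓ1 (by omega)
          _ ≤ z := hz1) (by nlinarith [Nat.zero_le (X ^ 2)])
      rw [hw]
      refine h4.trans ?_
      have h5 : (fib X W s).filter (fun t => ε * z ≤ (pn (t + b) z : ℝ) * Real.log ((3 * X ^ 2 : ℕ) : ℝ)) ⊆
          (fib X W s).filter (fun t => ε * y ≤ (pn (s + a) y : ℝ) * ℓ ∧ ε * z ≤ (pn (t + b) z : ℝ) * (3 * ℓ)) := by
        intro t ht
        rw [mem_filter] at ht ⊢
        rw [← hℓ₂] at ht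
        refine ⟨ht.1, hsG.2, ht.2.trans ?_⟩
        exact mul_le_mul_of_nonneg_left hl12.2 (Nat.cast_nonneg _)
      exact_mod_cast card_le_card h5
    refine le_trans ?_ hfin
    rw [← mul_sum, ← hM]
    calc (1 / 16 - 2 * ε) * M ≤ (1 / 4 - ε) * ((1 / 4 - 4 * ε) * M) := by nlinarith [mul_pos hε hM0, mul_pos (mul_pos hε hε) hM0]
      _ ≤ _ := mul_le_mul_of_nonneg_left hG2w (by linarith)
  have hcard : (S.card : ℝ) ≤ E1.card + E2.card := by
    exact_mod_cast (card_le_card hsub).trans (card_union_le _ _)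
  calc (S.card : ℝ) ≤ E1.card + E2.card := hcard
    _ ≤ X / ℓ ^ (U + 1) + X / ℓ ^ (U + 1) := by linarith
    _ = (2 * X) / ℓ ^ (U + 1) := by ring
    _ ≤ (ℓ * X) / ℓ ^ (U + 1) := by gcongr; linarith
    _ = X / ℓ ^ U := by
        rw [pow_succ]
        field_simp

end Pool.Agent.H82.UC
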