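import Pool.Agent.H82.UC.Basic

set_option autoImplicit false

/-! Weighted means of `R(x, y)` over the translates by the members of thin families: one step. -/

namespace Pool.Agent.H82.UC
open Finset Filter
open Pool.Agent.H373R2.T7 (energy)
open Pool.Agent.X25.TE (R)
open Pool.Agent.W301.SS (ev_L ev_log)

/-- the class of the length `y`: the classes are short geometric intervals -/
lemma classes {N : ℕ} {δ y : ℝ} (hN : 1 ≤ N) (hδ : 0 < δ) (hy : 1 ≤ y) (hyN : y ≤ N) :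
    ⌊Real.log (N / y) / δ⌋₊ ∈ range (⌊Real.log N / δ⌋₊ + 1) ∧
    y ≤ N * Real.exp (-(δ * ⌊Real.log (N / y) / δ⌋₊)) ∧
    (1 - δ) * (N * Real.exp (-(δ * ⌊Real.log (N / y) / δ⌋₊))) ≤ y := by
  have hN0 : (0 : ℝ) < N := by exact_mod_cast hN
  have hy0 : 0 < y := by linarith
  have hq1 : 1 ≤ N / y := by rw [le_div_iff₀ hy0]; linarith
  have hl0 : 0 ≤ Real.log (N / y) := Real.log_nonneg hq1
  have hl1 : Real.log (N / y) ≤ Real.log N := by
    apply Real.log_le_log (by positivity)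
    rw [div_le_iff₀ hy0]
    nlinarith
  obtain ⟨j, hj⟩ : ∃ j, j = ⌊Real.log (N / y) / δ⌋₊ := ⟨_, rfl⟩
  rw [← hj]
  have h1 : (j : ℝ) ≤ Real.log (N / y) / δ := by rw [hj]; exact Nat.floor_le (by positivity)
  have h2 : Real.log (N / y) / δ < j + 1 := by rw [hj]; exact Nat.lt_floor_add_one _
  rw [le_div_iff₀ hδ] at h1
  rw [div_lt_iff₀ hδ] at h2
  have hyl : y = N * Real.exp (-Real.log (N / y)) := by
    rw [Real.exp_neg, Real.exp_log (by positivity)]
    field_simp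
  refine ⟨?_, ?_, ?_⟩
  · rw [mem_range, hj, Nat.lt_succ_iff]
    apply Nat.floor_le_floor
    gcongr
  · rw [hyl]
    apply mul_le_mul_of_nonneg_left _ hN0.le
    apply Real.exp_le_exp.2
    nlinarith
  · have h3 : (1 - δ) ≤ Real.exp (-δ) := by
      have := Real.add_one_le_exp (-δ)
      linarith
    calc (1 - δ) * (N * Real.exp (-(δ * j))) ≤ Real.exp (-δ) * (N * Real.exp (-(δ * j))) := by gcongr
      _ = N * Real.exp (-(δ * (j + 1))) := by
          rw [show -(δ * ((j : ℝ) + 1)) = -δ + -(δ * j) by ring, Real.exp_add]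
          ring
      _ ≤ N * Real.exp (-Real.log (N / y)) := by
          apply mul_le_mul_of_nonneg_left _ hN0.le
          apply Real.exp_le_exp.2
          nlinarith
      _ = y := hyl.symm

/-- the sum over the translate by `b` with the weight `w` is close to the sum of `w`, for all lengths -/
def Avg (ε : ℝ) (K N : ℕ) (w : ℕ → ℝ) (b : ℕ) : Prop :=
  ∀ y : ℝ, Real.log N ^ K ≤ y → y ≤ N → |D N w b y| ≤ ε * ∑ a ∈ Icc 1 N, w a

theorem step (p B C U : ℕ) (ε : ℝ) (hε : 0 < ε) (hε1 : ε ≤ 1) : ∃ K : ℕ, ∀ᶠ N : ℕ in atTop,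
    ∀ (x : ℕ) (s : ℕ → ℤ), (∀ m ∈ Icc 1 x, |s m| ≤ B * N) →
    (energy p x s : ℝ) * N ≤ Real.log N ^ C * (x : ℝ) ^ (2 * p) →
    ∀ w : ℕ → ℝ, (∀ a ∈ Icc 1 N, 0 ≤ w a) → (∀ a ∈ Icc 1 N, w a ≤ Real.log N ^ C) →
    (N : ℝ) ≤ Real.log N ^ C * ∑ a ∈ Icc 1 N, w a →
    ∀ S : Finset ℕ, S ⊆ Icc 1 x → (∀ m ∈ S, 0 < s m ∧ ¬ Avg ε K N w (s m).toNat) →
      (S.card : ℝ) ≤ x / Real.log N ^ U := by
  classical
  rcases Nat.eq_zero_or_pos p with rfl | hp
  · refine ⟨0, ?_⟩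
    filter_upwards [ev_log C 2 (1 / 2) (by norm_num), eventually_ge_atTop 4] with N h1 h4 x s _ hE
    exfalso
    have hNr : (4 : ℝ) ≤ N := by exact_mod_cast h4
    have h2 : (1 : ℝ) ≤ energy 0 x s := by exact_mod_cast one_le_energy_zero x s
    have h3 : (N : ℝ) ^ (1 / 2 : ℝ) ≤ N := by
      calc (N : ℝ) ^ (1 / 2 : ℝ) ≤ (N : ℝ) ^ (1 : ℝ) := Real.rpow_le_rpow_of_exponent_le (by linarith) (by norm_num)
        _ = N := Real.rpow_one _
    simp only [mul_zero, pow_zero, mul_one] at hE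
    have h5 : (N : ℝ) ≤ Real.log N ^ C := by
      refine le_trans ?_ hE
      nlinarith
    linarith
  obtain ⟨C', hC'⟩ : ∃ C', C' = 2 * C + 2 * p * (U + 2) + 5 := ⟨_, rfl⟩
  obtain ⟨K₀, hK₀⟩ := Pool.Agent.X25.TE.avgFam C' p hp (ε / 4) (by positivity) (by linarith)
  have hK₁ : ∀ᶠ N : ℕ in atTop, _ :=
    (tendsto_atTop_mono (fun N : ℕ => Nat.le_mul_of_pos_left N (show 0 < B + 3 by omega)) tendsto_id).eventually hK₀
  obtain ⟨δ, hδ⟩ : ∃ δ, δ = ε / 4 / 8 := ⟨_, rfl⟩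
  have hδ0 : 0 < δ := by rw [hδ]; positivity
  refine ⟨K₀ + 1, ?_⟩
  filter_upwards [hK₁, ev_L (2 / δ + 4), ev_L ((2 : ℝ) ^ K₀), ev_L (12 * (B + 3) / ε), ev_L (B + 3),
    eventually_ge_atTop 16] with N h1 hL1 hL2 hL3 hL4 hN16 x s hs hE w hw0 hw1 hwN S hSx hS
  have hNr : (16 : ℝ) ≤ N := by exact_mod_cast hN16
  have hN0 : (0 : ℝ) < N := by linarith
  obtain ⟨ℓ, hℓ⟩ : ∃ ℓ, ℓ = Real.log N := ⟨_, rfl⟩
  rw [← hℓ] at hL1 hL2 hL3 hL4 hE hw1 hwN ⊢
  have h2d : 0 < 2 / δ := by positivity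
  have hℓ4 : 4 ≤ ℓ := by linarith
  have hℓ1 : 1 ≤ ℓ := by linarith
  have hℓ0 : 0 < ℓ := by linarith
  obtain ⟨W, hW⟩ : ∃ W, W = ∑ a ∈ Icc 1 N, w a := ⟨_, rfl⟩
  rw [← hW] at hwN
  have hW0 : 0 < W := by
    by_contra hcon
    push Not at hcon
    have : ℓ ^ C * W ≤ 0 := mul_nonpos_of_nonneg_of_nonpos (by positivity) hcon
    linarith
  -- the scale `N' = (B + 3) N`
  obtain ⟨N', hN'⟩ : ∃ N' : ℕ, N' = (B + 3) * N := ⟨_, rfl⟩
  rw [← hN'] at h1
  have hN'r : (N' : ℝ) = (B + 3) * N := by rw [hN']; push_cast; ring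
  have hNN' : (N : ℝ) ≤ N' := by
    rw [hN'r]
    have : (0 : ℝ) ≤ B := Nat.cast_nonneg B
    nlinarith
  have hN'0 : (0 : ℝ) < N' := by linarith
  obtain ⟨ℓ', hℓ'⟩ : ∃ ℓ', ℓ' = Real.log N' := ⟨_, rfl⟩
  rw [← hℓ'] at h1
  have hll : ℓ ≤ ℓ' := by rw [hℓ, hℓ']; exact Real.log_le_log hN0 hNN'
  have hlN : ℓ ≤ N := by
    rw [hℓ]
    have := Real.log_le_sub_one_of_pos hN0
    linarith
  have hll2 : ℓ' ≤ 2 * ℓ := by
    rw [hℓ', hN'r, Real.log_mul (by positivity) hN0.ne', ← hℓ]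
    have : Real.log (B + 3) ≤ ℓ := by
      have h3 := Real.log_le_sub_one_of_pos (show (0 : ℝ) < B + 3 by positivity)
      linarith
    linarith
  by_contra hcon
  push Not at hcon
  have hSne : S.Nonempty := by
    rw [nonempty_iff_ne_empty]
    rintro rfl
    have : (0 : ℝ) ≤ x / ℓ ^ U := by positivity
    simp only [card_empty, Nat.cast_zero] at hcon
    linarith
  -- the lengths
  have hy : ∀ m ∈ S, ∃ y : ℝ, ℓ ^ (K₀ + 1) ≤ y ∧ y ≤ N ∧ ε * W < |D N w (s m).toNat y| := by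
    intro m hm
    have h3 := (hS m hm).2
    unfold Avg at h3
    push Not at h3
    rw [← hℓ, ← hW] at h3
    exact h3
  choose! y hy1 hy2 hy3 using hy
  have hyone : ∀ m ∈ S, 1 ≤ y m := fun m hm => (one_le_pow₀ hℓ1).trans (hy1 m hm)
  obtain ⟨F, hF⟩ : ∃ F : ℕ → ℕ × Bool, F = fun m =>
      (⌊Real.log (N / y m) / δ⌋₊, decide (0 < D N w (s m).toNat (y m))) := ⟨_, rfl⟩
  obtain ⟨T, hT⟩ : ∃ T : Finset (ℕ × Bool), T = range (⌊Real.log N / δ⌋₊ + 1) ×ˢ univ := ⟨_, rfl⟩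
  have hFT : ∀ m ∈ S, F m ∈ T := by
    intro m hm
    rw [hF, hT, mem_product]
    exact ⟨(classes (by omega) hδ0 (hyone m hm) (hy2 m hm)).1, mem_univ _⟩
  have hTc : (T.card : ℝ) ≤ ℓ ^ 2 := by
    rw [hT, card_product, card_range, card_univ, Fintype.card_bool]
    push_cast
    have h3 : (⌊Real.log N / δ⌋₊ : ℝ) ≤ ℓ / δ := by rw [hℓ]; exact Nat.floor_le (div_nonneg (by rw [← hℓ]; linarith) hδ0.le)
    have h4 : ℓ / δ = ℓ * (2 / δ) / 2 := by ring
    have h5 : ℓ * (2 / δ) ≤ ℓ * (ℓ - 4) := mul_le_mul_of_nonneg_left (by linarith) hℓ0.le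
    nlinarith
  have hTne : T.Nonempty := ⟨F hSne.choose, hFT _ hSne.choose_spec⟩
  have hT0 : (0 : ℝ) < T.card := by exact_mod_cast hTne.card_pos
  obtain ⟨c, hcT, hc⟩ := Finset.exists_le_card_fiber_of_nsmul_le_card_of_maps_to (M := ℝ) hFT hTne
    (b := S.card / T.card) (by rw [nsmul_eq_mul]; field_simp; exact le_rfl)
  obtain ⟨S', hS'⟩ : ∃ S' : Finset ℕ, S' = {m ∈ S | F m = c} := ⟨_, rfl⟩
  rw [← hS'] at hc
  have hS'S : S' ⊆ S := by rw [hS']; exact filter_subset _ _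
  have hFc : ∀ m ∈ S', F m = c := fun m hm => by rw [hS'] at hm; exact (mem_filter.1 hm).2
  have hS'c : (x : ℝ) < S'.card * ℓ ^ (U + 2) := by
    rw [div_le_iff₀ hT0] at hc
    rw [div_lt_iff₀ (by positivity)] at hcon
    calc (x : ℝ) < S.card * ℓ ^ U := hcon
      _ ≤ (S'.card * T.card) * ℓ ^ U := by gcongr
      _ ≤ (S'.card * ℓ ^ 2) * ℓ ^ U := by gcongr
      _ = S'.card * ℓ ^ (U + 2) := by ring
  have hx0 : (0 : ℝ) ≤ x := Nat.cast_nonneg x
  have hS'0 : (0 : ℝ) < S'.card := by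
    by_contra h3
    have h4 : (S'.card : ℝ) = 0 := le_antisymm (not_lt.1 h3) (Nat.cast_nonneg _)
    rw [h4, zero_mul] at hS'c
    linarith
  have hS'ne : S'.Nonempty := card_pos.1 (by exact_mod_cast hS'0)
  obtain ⟨Y, hY⟩ : ∃ Y : ℝ, Y = N * Real.exp (-(δ * c.1)) := ⟨_, rfl⟩
  have hyY : ∀ m ∈ S', (1 - ε / 4 / 8) * Y ≤ y m ∧ y m ≤ Y := by
    intro m hm
    have h3 := classes (by omega) hδ0 (hyone m (hS'S hm)) (hy2 m (hS'S hm))
    have h4 : ⌊Real.log (N / y m) / δ⌋₊ = c.1 := by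
      have := congrArg Prod.fst (hFc m hm)
      rw [hF] at this
      exact this
    rw [h4, ← hY] at h3
    rw [← hδ]
    exact ⟨h3.2.2, h3.2.1⟩
  -- enumeration
  obtain ⟨e, he1, he2, he3⟩ := exists_enum S'
  obtain ⟨x', hx'⟩ : ∃ x', x' = S'.card := ⟨_, rfl⟩
  rw [← hx'] at he1 he2 he3 hS'0 hS'c
  have hpos : ∀ m ∈ S', 0 < s m := fun m hm => (hS m (hS'S hm)).1
  have hx'1 : 1 ≤ x' := by exact_mod_cast hS'0
  have hsz : ∀ i ∈ Icc 1 x', (s (e i)).toNat ≤ N' := by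
    intro i hi
    have h3 := hs (e i) (hSx (hS'S (he1 i hi)))
    have h4 := (abs_le.1 h3).2
    have h5 : ((s (e i)).toNat : ℤ) ≤ (N' : ℤ) := by
      rw [Int.toNat_of_nonneg (hpos _ (he1 i hi)).le, hN']
      push_cast
      have : (0 : ℤ) ≤ N := Nat.cast_nonneg _
      linarith
    exact_mod_cast h5
  have hen : (energy p x' (fun i => ((s (e i)).toNat : ℤ)) : ℝ) * N' ≤ ℓ' ^ C' * (x' : ℝ) ^ (2 * p) := by
    have h3 : energy p x' (fun i => ((s (e i)).toNat : ℤ)) ≤ energy p x s := by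
      rw [energy_congr' p x' _ (fun i => s (e i)) fun i hi => Int.toNat_of_nonneg (hpos _ (he1 i hi)).le]
      exact energy_sub p x x' s e (fun i hi => hSx (hS'S (he1 i hi))) he2
    have h4 : (energy p x' (fun i => ((s (e i)).toNat : ℤ)) : ℝ) ≤ energy p x s := by exact_mod_cast h3
    calc (energy p x' (fun i => ((s (e i)).toNat : ℤ)) : ℝ) * N' ≤ energy p x s * N' := by gcongr
      _ = (B + 3) * (energy p x s * N) := by rw [hN'r]; ring
      _ ≤ ℓ * (ℓ ^ C * (x : ℝ) ^ (2 * p)) := by gcongr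
      _ ≤ ℓ * (ℓ ^ C * (x' * ℓ ^ (U + 2)) ^ (2 * p)) := by gcongr
      _ = ℓ ^ (C + 2 * p * (U + 2) + 1) * (x' : ℝ) ^ (2 * p) := by
          rw [mul_pow, ← pow_mul]
          ring
      _ ≤ ℓ ^ C' * (x' : ℝ) ^ (2 * p) := by
          apply mul_le_mul_of_nonneg_right _ (by positivity)
          exact pow_le_pow_right₀ hℓ1 (by rw [hC']; nlinarith)
      _ ≤ ℓ' ^ C' * (x' : ℝ) ^ (2 * p) := by gcongr
  obtain ⟨E, hE1, hE2, hE3⟩ := h1 (fun i => (s (e i)).toNat) x' hx'1 hsz hen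
  -- the mean over the subfamily
  have hY1 : ℓ' ^ K₀ ≤ Y := by
    obtain ⟨m, hm⟩ := hS'ne
    calc ℓ' ^ K₀ ≤ (2 * ℓ) ^ K₀ := by gcongr; linarith
      _ = 2 ^ K₀ * ℓ ^ K₀ := mul_pow _ _ _
      _ ≤ ℓ * ℓ ^ K₀ := by gcongr
      _ = ℓ ^ (K₀ + 1) := by ring
      _ ≤ y m := hy1 m (hS'S hm)
      _ ≤ Y := (hyY m hm).2
  have hY2 : Y ≤ N' := by
    refine le_trans ?_ hNN'
    rw [hY]
    have : Real.exp (-(δ * c.1)) ≤ 1 := by
      apply Real.exp_le_one_iff.2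
      have : 0 ≤ δ * c.1 := by positivity
      linarith
    nlinarith
  have hgood : ∀ a ∈ Icc 1 N, a ∉ E →
      |∑ m ∈ S', (R ((a + (s m).toNat : ℕ) : ℝ) (y m) - 1)| ≤ (ε / 4) * x' := by
    intro a ha haE
    have h3 := hE3 a (by rw [mem_Icc] at ha ⊢; exact ⟨ha.1, ha.2.trans (by exact_mod_cast hNN')⟩) haE Y hY1 hY2
      (fun i => y (e i)) (fun i hi => hyY _ (he1 i hi))
    have h4 : ∑ i ∈ Icc 1 x', R (((s (e i)).toNat + a : ℕ) : ℝ) (y (e i)) =
        ∑ m ∈ S', R ((a + (s m).toNat : ℕ) : ℝ) (y m) := by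
      rw [← he3 fun m => R ((a + (s m).toNat : ℕ) : ℝ) (y m)]
      apply sum_congr rfl
      intro i _
      rw [add_comm]
    rw [h4] at h3
    rw [sum_sub_distrib, sum_const, nsmul_eq_mul, mul_one, ← hx']
    have h5 : ∑ m ∈ S', R ((a + (s m).toNat : ℕ) : ℝ) (y m) - x' =
        ((∑ m ∈ S', R ((a + (s m).toNat : ℕ) : ℝ) (y m)) / x' - 1) * x' := by
      field_simp
    rw [h5, abs_mul, abs_of_pos hS'0]
    exact mul_le_mul_of_nonneg_right h3 hS'0.le
  have htriv : ∀ a ∈ Icc 1 N, |∑ m ∈ S', (R ((a + (s m).toNat : ℕ) : ℝ) (y m) - 1)| ≤ (3 * ℓ) * x' := by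
    intro a ha
    rw [mem_Icc] at ha
    calc |∑ m ∈ S', (R ((a + (s m).toNat : ℕ) : ℝ) (y m) - 1)|
        ≤ ∑ m ∈ S', |R ((a + (s m).toNat : ℕ) : ℝ) (y m) - 1| := abs_sum_le_sum_abs _ _
      _ ≤ ∑ _m ∈ S', 3 * ℓ := by
          apply sum_le_sum
          intro m hm
          have hy0 : 0 < y m := by linarith [hyone m (hS'S hm)]
          have h3 := R_nonneg (a + (s m).toNat) (y m) hy0.le
          have h4 := R_le (a + (s m).toNat) (y m) hy0
          have h5 : Real.log ((a + (s m).toNat : ℕ) : ℝ) ≤ ℓ' := by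
            rw [hℓ']
            apply Real.log_le_log (by exact_mod_cast (by omega : 0 < a + (s m).toNat))
            have h6 : ((s m).toNat : ℤ) ≤ B * N := by
              rw [Int.toNat_of_nonneg (hpos m hm).le]
              exact (abs_le.1 (hs m (hSx (hS'S hm)))).2
            have h7 : (s m).toNat ≤ B * N := by exact_mod_cast h6
            have h8 : a + (s m).toNat ≤ N' := by
              rw [hN']
              nlinarith [ha.2]
            exact_mod_cast h8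
          rw [abs_le]
          constructor
          · linarith
          · linarith
      _ = (3 * ℓ) * x' := by rw [sum_const, nsmul_eq_mul, ← hx', mul_comm]
  -- the total
  have hEw : ∑ a ∈ (Icc 1 N).filter (· ∈ E), w a ≤ (ε / (12 * ℓ)) * W := by
    have h3 : ∑ a ∈ (Icc 1 N).filter (· ∈ E), w a ≤ E.card * ℓ ^ C := by
      calc ∑ a ∈ (Icc 1 N).filter (· ∈ E), w a ≤ ∑ _a ∈ (Icc 1 N).filter (· ∈ E), ℓ ^ C :=
            sum_le_sum fun a ha => hw1 a (mem_filter.1 ha).1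
        _ = ((Icc 1 N).filter (· ∈ E)).card * ℓ ^ C := by rw [sum_const, nsmul_eq_mul]
        _ ≤ E.card * ℓ ^ C := by
            gcongr
            intro a ha
            exact (mem_filter.1 ha).2
    have h4 : (E.card : ℝ) * ℓ ^ C' ≤ (B + 3) * (ℓ ^ C * W) := by
      calc (E.card : ℝ) * ℓ ^ C' ≤ E.card * ℓ' ^ C' := by gcongr
        _ ≤ N' := hE2
        _ = (B + 3) * N := hN'r
        _ ≤ (B + 3) * (ℓ ^ C * W) := by gcongr
    have h5 : (E.card : ℝ) * ℓ ^ C * ℓ ^ 2 * ℓ ^ C ≤ (B + 3) * W * ℓ ^ C := by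
      calc (E.card : ℝ) * ℓ ^ C * ℓ ^ 2 * ℓ ^ C = E.card * ℓ ^ (2 * C + 2) := by ring
        _ ≤ E.card * ℓ ^ C' := by
            apply mul_le_mul_of_nonneg_left _ (Nat.cast_nonneg _)
            exact pow_le_pow_right₀ hℓ1 (by rw [hC']; nlinarith)
        _ ≤ (B + 3) * (ℓ ^ C * W) := h4
        _ = (B + 3) * W * ℓ ^ C := by ring
    have h6 : (E.card : ℝ) * ℓ ^ C * ℓ ^ 2 ≤ (B + 3) * W := le_of_mul_le_mul_right h5 (by positivity)
    refine h3.trans ?_
    rw [div_mul_eq_mul_div, le_div_iff₀ (by positivity)]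
    have h7 : 12 * (B + 3) ≤ ε * ℓ := by
      rw [div_le_iff₀ hε] at hL3
      linarith
    have h8 : (E.card : ℝ) * ℓ ^ C * (12 * ℓ) * ℓ ≤ (ε * W) * ℓ := by
      calc (E.card : ℝ) * ℓ ^ C * (12 * ℓ) * ℓ = 12 * (E.card * ℓ ^ C * ℓ ^ 2) := by ring
        _ ≤ 12 * ((B + 3) * W) := by gcongr
        _ = (12 * (B + 3)) * W := by ring
        _ ≤ (ε * ℓ) * W := by gcongr
        _ = (ε * W) * ℓ := by ring
    exact le_of_mul_le_mul_right h8 hℓ0
  have hsum : ∑ m ∈ S', D N w (s m).toNat (y m) =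
      ∑ a ∈ Icc 1 N, w a * ∑ m ∈ S', (R ((a + (s m).toNat : ℕ) : ℝ) (y m) - 1) := by
    unfold D
    rw [sum_comm]
    apply sum_congr rfl
    intro a _
    rw [mul_sum]
  have hup : |∑ m ∈ S', D N w (s m).toNat (y m)| ≤ (ε / 2) * W * x' := by
    rw [hsum]
    calc |∑ a ∈ Icc 1 N, w a * ∑ m ∈ S', (R ((a + (s m).toNat : ℕ) : ℝ) (y m) - 1)|
        ≤ ∑ a ∈ Icc 1 N, w a * |∑ m ∈ S', (R ((a + (s m).toNat : ℕ) : ℝ) (y m) - 1)| := by
          refine (abs_sum_le_sum_abs _ _).trans (le_of_eq (sum_congr rfl fun a ha => ?_))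
          rw [abs_mul, abs_of_nonneg (hw0 a ha)]
      _ = ∑ a ∈ (Icc 1 N).filter (· ∈ E), w a * |∑ m ∈ S', (R ((a + (s m).toNat : ℕ) : ℝ) (y m) - 1)| +
          ∑ a ∈ (Icc 1 N).filter (fun a => a ∉ E), w a * |∑ m ∈ S', (R ((a + (s m).toNat : ℕ) : ℝ) (y m) - 1)| :=
          (sum_filter_add_sum_filter_not _ _ _).symm
      _ ≤ ∑ a ∈ (Icc 1 N).filter (· ∈ E), w a * ((3 * ℓ) * x') +
          ∑ a ∈ (Icc 1 N).filter (fun a => a ∉ E), w a * ((ε / 4) * x') := by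
          apply add_le_add
          · apply sum_le_sum
            intro a ha
            have ha1 := (mem_filter.1 ha).1
            exact mul_le_mul_of_nonneg_left (htriv a ha1) (hw0 a ha1)
          · apply sum_le_sum
            intro a ha
            have ha1 := (mem_filter.1 ha).1
            exact mul_le_mul_of_nonneg_left (hgood a ha1 (mem_filter.1 ha).2) (hw0 a ha1)
      _ = (∑ a ∈ (Icc 1 N).filter (· ∈ E), w a) * ((3 * ℓ) * x') +
          (∑ a ∈ (Icc 1 N).filter (fun a => a ∉ E), w a) * ((ε / 4) * x') := by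
          rw [sum_mul, sum_mul]
      _ ≤ ((ε / (12 * ℓ)) * W) * ((3 * ℓ) * x') + W * ((ε / 4) * x') := by
          apply add_le_add
          · gcongr
          · apply mul_le_mul_of_nonneg_right _ (by positivity)
            rw [hW]
            exact sum_le_sum_of_subset_of_nonneg (filter_subset _ _) fun a ha _ => hw0 a ha
      _ = (ε / 2) * W * x' := by
          field_simp
          ring
  have hlow : ε * W * x' ≤ |∑ m ∈ S', D N w (s m).toNat (y m)| := by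
    rcases hb : c.2 with _ | _
    · have hneg : ∀ m ∈ S', D N w (s m).toNat (y m) ≤ -(ε * W) := by
        intro m hm
        have h3 := congrArg Prod.snd (hFc m hm)
        rw [hF, hb] at h3
        simp only [decide_eq_false_iff_not, not_lt] at h3
        have h4 := hy3 m (hS'S hm)
        rw [abs_of_nonpos h3] at h4
        linarith
      have h5 : ∑ m ∈ S', D N w (s m).toNat (y m) ≤ -(ε * W * x') := by
        calc ∑ m ∈ S', D N w (s m).toNat (y m) ≤ ∑ _m ∈ S', -(ε * W) := sum_le_sum hneg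
          _ = -(ε * W * x') := by rw [sum_const, nsmul_eq_mul, ← hx']; ring
      rw [le_abs]
      right
      linarith
    · have hneg : ∀ m ∈ S', ε * W ≤ D N w (s m).toNat (y m) := by
        intro m hm
        have h3 := congrArg Prod.snd (hFc m hm)
        rw [hF, hb] at h3
        simp only [decide_eq_true_eq] at h3
        have h4 := hy3 m (hS'S hm)
        rw [abs_of_pos h3] at h4
        linarith
      have h5 : ε * W * x' ≤ ∑ m ∈ S', D N w (s m).toNat (y m) := by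
        calc ε * W * x' = ∑ _m ∈ S', (ε * W) := by rw [sum_const, nsmul_eq_mul, ← hx']; ring
          _ ≤ ∑ m ∈ S', D N w (s m).toNat (y m) := sum_le_sum hneg
      rw [le_abs]
      left
      exact h5
  have h9 := hlow.trans hup
  have h10 : 0 < ε * W * x' := by positivity
  nlinarith

end Pool.Agent.H82.UC
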